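import Pool.Agent.H812R2.SSE.Scale

/-!
# The block step
-/

set_option autoImplicit false
set_option linter.unusedSectionVars false
set_option linter.unusedVariables false

namespace Pool.Agent.H812R2.SSE

open Matrix

section pp

variable {γ α β : Type} [Fintype γ] [DecidableEq γ] [Fintype α] [DecidableEq α]
  [Fintype β] [DecidableEq β]

/-- the upper right block of powers -/
def PP (Θ : Matrix γ γ ℕ) (m : Matrix γ α ℕ) (A : Matrix α α ℕ) (t : ℕ) : Matrix γ α ℕ :=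
  ∑ k ∈ Finset.range t, Θ ^ (t - 1 - k) * (m * A ^ k)

theorem PP_succ (Θ : Matrix γ γ ℕ) (m : Matrix γ α ℕ) (A : Matrix α α ℕ) (t : ℕ) :
    PP Θ m A (t + 1) = Θ * PP Θ m A t + m * A ^ t := by
  unfold PP
  rw [Finset.sum_range_succ, Matrix.mul_sum]
  congr 1
  · refine Finset.sum_congr rfl fun k hk => ?_
    have hk' := Finset.mem_range.1 hk
    have : t + 1 - 1 - k = (t - 1 - k) + 1 := by omega
    rw [this, pow_succ', Matrix.mul_assoc]
  · simp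

theorem block_pow (Θ : Matrix γ γ ℕ) (m : Matrix γ α ℕ) (A : Matrix α α ℕ) (t : ℕ) :
    (fromBlocks Θ m 0 A) ^ t = fromBlocks (Θ ^ t) (PP Θ m A t) 0 (A ^ t) := by
  induction t with
  | zero => simp [PP, Matrix.fromBlocks_one]
  | succ t ih =>
    rw [pow_succ', ih, Matrix.fromBlocks_multiply, PP_succ, pow_succ', pow_succ']
    simp

theorem PP_ge (Θ : Matrix γ γ ℕ) (m : Matrix γ α ℕ) (A : Matrix α α ℕ) {t k : ℕ} (hk : k < t)
    (i : γ) (a : α) : (Θ ^ (t - 1 - k) * (m * A ^ k)) i a ≤ PP Θ m A t i a := by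
  unfold PP
  rw [Matrix.sum_apply]
  exact Finset.single_le_sum (f := fun k => (Θ ^ (t - 1 - k) * (m * A ^ k)) i a)
    (fun _ _ => Nat.zero_le _) (Finset.mem_range.2 hk)

theorem PP_ne (Θ : Matrix γ γ ℕ) (m : Matrix γ α ℕ) (A : Matrix α α ℕ) {t : ℕ}
    (i : γ) (a : α) (h : PP Θ m A t i a ≠ 0) :
    ∃ k < t, (Θ ^ (t - 1 - k) * (m * A ^ k)) i a ≠ 0 := by
  unfold PP at h
  rw [Matrix.sum_apply] at h
  obtain ⟨k, hk, hk'⟩ := Finset.exists_ne_zero_of_sum_ne_zero h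
  exact ⟨k, Finset.mem_range.1 hk, hk'⟩

theorem mul_entry_le {δ : Type} (X : Matrix γ α ℕ) (Y : Matrix α δ ℕ) (i : γ) (a : α) (b : δ) :
    X i a * Y a b ≤ (X * Y) i b := by
  rw [Matrix.mul_apply]
  exact Finset.single_le_sum (f := fun a => X i a * Y a b) (fun _ _ => Nat.zero_le _)
    (Finset.mem_univ a)

theorem mul_pow_ge (X : Matrix γ β ℕ) (B : Matrix β β ℕ) (τ : Equiv.Perm β) (w : β → ℕ)
    (hw : ∀ a, w (τ a) = w a) (hBw : ∀ a, w a ≤ B a (τ a)) (i : γ) (a : β) (k : ℕ) :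
    X i a * w a ^ k ≤ (X * B ^ k) i ((τ ^ k) a) := by
  induction k with
  | zero => simp
  | succ k ih =>
    have hwk : w ((τ ^ k) a) = w a := by
      clear ih
      induction k with
      | zero => simp
      | succ k ih => rw [pow_succ', Equiv.Perm.mul_apply, hw, ih]
    rw [pow_succ B, ← Matrix.mul_assoc, pow_succ' τ, Equiv.Perm.mul_apply]
    refine le_trans ?_ (mul_entry_le (X * B ^ k) B i ((τ ^ k) a) (τ ((τ ^ k) a)))
    have h1 := hBw ((τ ^ k) a)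
    rw [hwk] at h1
    calc X i a * w a ^ (k + 1) = X i a * w a ^ k * w a := by rw [pow_succ, mul_assoc]
      _ ≤ _ := Nat.mul_le_mul ih h1

theorem mul_ne_zero_entry {δ : Type} (X : Matrix γ α ℕ) (Y : Matrix α δ ℕ) (i : γ) (b : δ)
    (h : (X * Y) i b ≠ 0) : ∃ a, X i a ≠ 0 ∧ Y a b ≠ 0 := by
  rw [Matrix.mul_apply] at h
  obtain ⟨a, _, ha⟩ := Finset.exists_ne_zero_of_sum_ne_zero h
  exact ⟨a, fun h0 => ha (by rw [h0, zero_mul]), fun h0 => ha (by rw [h0, mul_zero])⟩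

theorem bound_exists {P : Type} [Finite P] (U : ℕ → P → Prop) :
    ∃ K, ∀ p, (∃ k, U k p) → ∃ k ≤ K, U k p := by
  classical
  have := Fintype.ofFinite P
  refine ⟨Finset.univ.sup (fun p => if h : ∃ k, U k p then Nat.find h else 0), ?_⟩
  intro p hp
  refine ⟨Nat.find hp, ?_, Nat.find_spec hp⟩
  have := Finset.le_sup (f := fun p => if h : ∃ k, U k p then Nat.find h else 0) (Finset.mem_univ p)
  simpa [dif_pos hp] using this

theorem perm_shift (σ : Equiv.Perm γ) (t : ℕ) (ht : σ ^ t = 1) (a b : ℤ) (hab : a = b + t) :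
    σ ^ a = σ ^ b := by
  rw [hab, _root_.zpow_add, zpow_natCast, ht, mul_one]

theorem pow_gt (n M p : ℕ) (hn : 1 ≤ n) (hp : M + 1 ≤ p) : (n - 1) * M < n ^ p := by
  rcases Nat.lt_or_ge n 2 with h | h
  · have : n = 1 := by omega
    subst this; simp
  · have h1 : M < 2 ^ M := Nat.lt_two_pow_self
    have h2 : 2 ^ M ≤ n ^ M := Nat.pow_le_pow_left h M
    have h3 : n ^ (M + 1) ≤ n ^ p := Nat.pow_le_pow_right (by omega) hp
    calc (n - 1) * M ≤ n * M := Nat.mul_le_mul_right _ (by omega)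
      _ < n * n ^ M := Nat.mul_lt_mul_of_pos_left (by omega) (by omega)
      _ = n ^ (M + 1) := by rw [pow_succ']
      _ ≤ n ^ p := h3

end pp

theorem semiconj_pow {α β : Type} [Fintype α] [DecidableEq α] [Fintype β] [DecidableEq β]
    (A : Matrix α α ℕ) (B : Matrix β β ℕ) (R : Matrix α β ℕ) (h : A * R = R * B) (t : ℕ) :
    A ^ t * R = R * B ^ t := by
  induction t with
  | zero => simp
  | succ t ih => rw [pow_succ, Matrix.mul_assoc, h, ← Matrix.mul_assoc, ih, Matrix.mul_assoc,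
      ← pow_succ]

section step

variable {γ α β : Type} [Fintype γ] [DecidableEq γ] [Fintype α] [DecidableEq α]
  [Fintype β] [DecidableEq β]

/-- all hypotheses on the block matrices -/
structure Dat (σ : Equiv.Perm γ) (n : γ → ℕ) (m : Matrix γ α ℕ) (A : Matrix α α ℕ)
    (m' : Matrix γ β ℕ) (B : Matrix β β ℕ) (τ : Equiv.Perm β) (w : β → ℕ) (lvl : β → ℕ)
    (Bl : Matrix β β ℕ) (r : γ → ℕ) (r12 : Matrix γ β ℕ) (R2 : Matrix α β ℕ) (s0 : γ → ℕ)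
    (s12 : Matrix γ α ℕ) (S2 : Matrix β α ℕ) (l : ℕ) : Prop where
  hn : ∀ i, n (σ i) = n i
  hpn : ∀ i, 0 < n i
  hw : ∀ a, w (τ a) = w a
  hpw : ∀ a, 0 < w a
  hl : ∀ a, lvl (τ a) = lvl a
  hB : B = Th τ w + Bl
  hBl : ∀ a b, Bl a b ≠ 0 → lvl a < lvl b
  hr : ∀ i, 0 < r i
  hrs : ∀ i, r (σ i) = r i
  hrd : ∀ i, r i ∣ n i ^ l
  hs0 : ∀ i, 0 < s0 i
  eAR : fromBlocks (Th σ n) m 0 A * fromBlocks (diagonal r) r12 0 R2 =
    fromBlocks (diagonal r) r12 0 R2 * fromBlocks (Th σ n) m' 0 B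
  eRS : fromBlocks (diagonal r) r12 0 R2 * fromBlocks (Th (σ ^ l) s0) s12 0 S2 =
    (fromBlocks (Th σ n) m 0 A) ^ l
  eSR : fromBlocks (Th (σ ^ l) s0) s12 0 S2 * fromBlocks (diagonal r) r12 0 R2 =
    (fromBlocks (Th σ n) m' 0 B) ^ l

variable {σ : Equiv.Perm γ} {n : γ → ℕ} {m : Matrix γ α ℕ} {A : Matrix α α ℕ}
    {m' : Matrix γ β ℕ} {B : Matrix β β ℕ} {τ : Equiv.Perm β} {w : β → ℕ} {lvl : β → ℕ}
    {Bl : Matrix β β ℕ} {r : γ → ℕ} {r12 : Matrix γ β ℕ} {R2 : Matrix α β ℕ} {s0 : γ → ℕ}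
    {s12 : Matrix γ α ℕ} {S2 : Matrix β α ℕ} {l : ℕ}

/-- the upper right block of `A^t R` -/
def YY (σ : Equiv.Perm γ) (n : γ → ℕ) (m : Matrix γ α ℕ) (A : Matrix α α ℕ)
    (r12 : Matrix γ β ℕ) (R2 : Matrix α β ℕ) (t : ℕ) : Matrix γ β ℕ :=
  Th σ n ^ t * r12 + PP (Th σ n) m A t * R2

theorem AtR (t : ℕ) : (fromBlocks (Th σ n) m 0 A) ^ t * fromBlocks (diagonal r) r12 0 R2 =
    fromBlocks (Th σ n ^ t * diagonal r) (YY σ n m A r12 R2 t) 0 (A ^ t * R2) := by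
  rw [block_pow, Matrix.fromBlocks_multiply, YY]
  simp

theorem Dat.Y_eq (D : Dat σ n m A m' B τ w lvl Bl r r12 R2 s0 s12 S2 l) (t : ℕ) :
    YY σ n m A r12 R2 t = diagonal r * PP (Th σ n) m' B t + r12 * B ^ t := by
  have h := semiconj_pow _ _ _ D.eAR t
  rw [AtR, block_pow, Matrix.fromBlocks_multiply, Matrix.fromBlocks_inj] at h
  exact h.2.1

theorem Dat.AR2 (D : Dat σ n m A m' B τ w lvl Bl r r12 R2 s0 s12 S2 l) (t : ℕ) :
    A ^ t * R2 = R2 * B ^ t := by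
  have h := semiconj_pow _ _ _ D.eAR t
  rw [AtR, block_pow, Matrix.fromBlocks_multiply, Matrix.fromBlocks_inj] at h
  simpa using h.2.2.2

theorem Dat.main_eq (D : Dat σ n m A m' B τ w lvl Bl r r12 R2 s0 s12 S2 l) (t : ℕ) :
    Th σ n ^ t * (diagonal r * m') + YY σ n m A r12 R2 t * B =
      m * (A ^ t * R2) + Th σ n * YY σ n m A r12 R2 t := by
  have h : (fromBlocks (Th σ n) m 0 A) ^ t * fromBlocks (diagonal r) r12 0 R2 *
      fromBlocks (Th σ n) m' 0 B = fromBlocks (Th σ n) m 0 A *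
        ((fromBlocks (Th σ n) m 0 A) ^ t * fromBlocks (diagonal r) r12 0 R2) := by
    rw [Matrix.mul_assoc, ← D.eAR, ← Matrix.mul_assoc, ← Matrix.mul_assoc, ← pow_succ, ← pow_succ']
  rw [AtR, Matrix.fromBlocks_multiply, Matrix.fromBlocks_multiply, Matrix.fromBlocks_inj] at h
  have h2 := h.2.1
  rw [Matrix.mul_assoc] at h2
  rw [h2, add_comm]

theorem Dat.S2R2 (D : Dat σ n m A m' B τ w lvl Bl r r12 R2 s0 s12 S2 l) :
    S2 * R2 = B ^ l := by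
  have h := D.eSR
  rw [block_pow, Matrix.fromBlocks_multiply, Matrix.fromBlocks_inj] at h
  simpa using h.2.2.2

theorem Dat.E3 (D : Dat σ n m A m' B τ w lvl Bl r r12 R2 s0 s12 S2 l) (t : ℕ) :
    Th σ n ^ t * diagonal r * s12 + YY σ n m A r12 R2 t * S2 = PP (Th σ n) m A (t + l) := by
  have h : (fromBlocks (Th σ n) m 0 A) ^ t * fromBlocks (diagonal r) r12 0 R2 *
      fromBlocks (Th (σ ^ l) s0) s12 0 S2 = (fromBlocks (Th σ n) m 0 A) ^ (t + l) := by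
    rw [Matrix.mul_assoc, D.eRS, ← pow_add]
  rw [AtR, Matrix.fromBlocks_multiply, block_pow, Matrix.fromBlocks_inj] at h
  exact h.2.1

theorem Dat.E2 (D : Dat σ n m A m' B τ w lvl Bl r r12 R2 s0 s12 S2 l) (t : ℕ) :
    Th (σ ^ l) s0 * YY σ n m A r12 R2 t + s12 * (A ^ t * R2) = PP (Th σ n) m' B (l + t) := by
  have h : fromBlocks (Th (σ ^ l) s0) s12 0 S2 *
      ((fromBlocks (Th σ n) m 0 A) ^ t * fromBlocks (diagonal r) r12 0 R2) =
      (fromBlocks (Th σ n) m' 0 B) ^ (l + t) := by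
    rw [semiconj_pow _ _ _ D.eAR t, ← Matrix.mul_assoc, D.eSR, ← pow_add]
  rw [AtR, Matrix.fromBlocks_multiply, block_pow, Matrix.fromBlocks_inj] at h
  exact h.2.1

theorem Dat.hBw (D : Dat σ n m A m' B τ w lvl Bl r r12 R2 s0 s12 S2 l) (a : β) :
    w a ≤ B a (τ a) := by
  rw [D.hB, Matrix.add_apply, Th_apply, if_pos rfl]
  exact Nat.le_add_right _ _

/-- first family of witnesses -/
def UU (σ : Equiv.Perm γ) (m' : Matrix γ β ℕ) (B : Matrix β β ℕ) (k : ℕ) (u : γ × β) : Prop :=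
  (m' * B ^ k) ((σ ^ (-(k + 1 : ℤ))) u.1) u.2 ≠ 0

/-- second family of witnesses -/
def VV (σ : Equiv.Perm γ) (m : Matrix γ α ℕ) (R2 : Matrix α β ℕ) (B : Matrix β β ℕ) (k : ℕ)
    (u : γ × β) : Prop :=
  (m * (R2 * B ^ k)) ((σ ^ (-(k + 1 : ℤ))) u.1) u.2 ≠ 0

theorem n_zpow (hn : ∀ i, n (σ i) = n i) (z : ℤ) (i : γ) : n ((σ ^ z) i) = n i := by
  have h1 : ∀ k : ℕ, ∀ i, n ((σ ^ k) i) = n i := by
    intro k
    induction k with
    | zero => simp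
    | succ k ih => intro i; rw [pow_succ', Equiv.Perm.mul_apply, hn, ih]
  obtain ⟨k, rfl | rfl⟩ := z.eq_nat_or_neg
  · rw [zpow_natCast]; exact h1 k i
  · have := h1 k ((σ ^ (-(k : ℤ))) i)
    rw [← this, ← zpow_natCast, ← Equiv.Perm.mul_apply, ← _root_.zpow_add]
    simp

theorem Dat.supp_U (D : Dat σ n m A m' B τ w lvl Bl r r12 R2 s0 s12 S2 l) (t : ℕ)
    (ht : σ ^ t = 1) (u : γ × β) (hu : YY σ n m A r12 R2 t u.1 u.2 ≠ 0) :
    ∃ k, UU σ m' B k u := by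
  have h := congrFun (congrFun (D.E2 t) ((σ ^ (-(l : ℤ))) u.1)) u.2
  rw [Matrix.add_apply, Th_mul] at h
  have e1 : (σ ^ l) ((σ ^ (-(l : ℤ))) u.1) = u.1 := by
    rw [← zpow_natCast, ← Equiv.Perm.mul_apply, ← _root_.zpow_add]; simp
  rw [e1] at h
  have h2 : PP (Th σ n) m' B (l + t) ((σ ^ (-(l : ℤ))) u.1) u.2 ≠ 0 := by
    rw [← h]
    have := Nat.mul_pos (D.hs0 ((σ ^ (-(l : ℤ))) u.1)) (Nat.pos_of_ne_zero hu)
    omega
  obtain ⟨k, hk, hk'⟩ := PP_ne _ _ _ _ _ h2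
  rw [Th_pow_mul σ n D.hn] at hk'
  refine ⟨k, ?_⟩
  unfold UU
  have e2 : (σ ^ (l + t - 1 - k)) ((σ ^ (-(l : ℤ))) u.1) = (σ ^ (-(k + 1 : ℤ))) u.1 := by
    rw [← zpow_natCast, ← Equiv.Perm.mul_apply, ← _root_.zpow_add,
      perm_shift σ t ht _ (-(k + 1 : ℤ)) (by omega)]
  rw [e2] at hk'
  exact fun h0 => hk' (by rw [h0, mul_zero])

theorem Dat.Y_ge (D : Dat σ n m A m' B τ w lvl Bl r r12 R2 s0 s12 S2 l) (t : ℕ)
    (ht : σ ^ t = 1) (k : ℕ) (hk : k < t) (u : γ × β) (hu : UU σ m' B k u) :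
    n u.1 ^ (t - 1 - k) ≤ YY σ n m A r12 R2 t u.1 u.2 := by
  rw [D.Y_eq, Matrix.add_apply, Matrix.diagonal_mul]
  have h1 := PP_ge (Th σ n) m' B hk u.1 u.2
  rw [Th_pow_mul σ n D.hn] at h1
  have e2 : (σ ^ (t - 1 - k)) u.1 = (σ ^ (-(k + 1 : ℤ))) u.1 := by
    rw [← zpow_natCast, perm_shift σ t ht _ (-(k + 1 : ℤ)) (by omega)]
  rw [e2] at h1
  have h2 : 1 ≤ (m' * B ^ k) ((σ ^ (-(k + 1 : ℤ))) u.1) u.2 := Nat.one_le_iff_ne_zero.2 hu
  have h3 := D.hr u.1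
  calc n u.1 ^ (t - 1 - k) = n u.1 ^ (t - 1 - k) * 1 := (mul_one _).symm
    _ ≤ n u.1 ^ (t - 1 - k) * (m' * B ^ k) ((σ ^ (-(k + 1 : ℤ))) u.1) u.2 :=
        Nat.mul_le_mul_left _ h2
    _ ≤ PP (Th σ n) m' B t u.1 u.2 := h1
    _ ≤ r u.1 * PP (Th σ n) m' B t u.1 u.2 := Nat.le_mul_of_pos_left _ h3
    _ ≤ _ := Nat.le_add_right _ _

theorem Dat.condB_aux (D : Dat σ n m A m' B τ w lvl Bl r r12 R2 s0 s12 S2 l) (t K M : ℕ)
    (ht : σ ^ t = 1) (hK : K + M + 2 ≤ t) : ∀ k ≤ K, ∀ u : γ × β, UU σ m' B k u →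
    ∃ v, (om σ τ).SameCycle u v ∧ (n u.1 - 1) * M <
      (Th σ n ^ t * (diagonal r * m') + YY σ n m A r12 R2 t * Bl) (σ.symm v.1) v.2 := by
  intro k
  induction k with
  | zero =>
    intro _ u hu
    refine ⟨u, Equiv.Perm.SameCycle.refl _ _, ?_⟩
    unfold UU at hu
    simp only [pow_zero, Matrix.mul_one, Nat.cast_zero, zero_add, _root_.zpow_neg_one] at hu
    have hu' : m' (σ.symm u.1) u.2 ≠ 0 := hu
    rw [Matrix.add_apply, Th_pow_mul σ n D.hn, ht, Equiv.Perm.one_apply, Matrix.diagonal_mul]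
    have h1 : n (σ.symm u.1) = n u.1 := by
      have := D.hn (σ.symm u.1); rw [Equiv.apply_symm_apply] at this; exact this.symm
    rw [h1]
    have h2 := pow_gt (n u.1) M t (D.hpn _) (by omega)
    have h3 : 1 ≤ r (σ.symm u.1) * m' (σ.symm u.1) u.2 :=
      Nat.mul_pos (D.hr _) (Nat.pos_of_ne_zero hu')
    calc (n u.1 - 1) * M < n u.1 ^ t := h2
      _ = n u.1 ^ t * 1 := (mul_one _).symm
      _ ≤ n u.1 ^ t * (r (σ.symm u.1) * m' (σ.symm u.1) u.2) := Nat.mul_le_mul_left _ h3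
      _ ≤ _ := Nat.le_add_right _ _
  | succ k ih =>
    intro hk u hu
    unfold UU at hu
    rw [pow_succ, ← Matrix.mul_assoc] at hu
    obtain ⟨b, hb1, hb2⟩ := mul_ne_zero_entry _ _ _ _ hu
    have hU : UU σ m' B k (σ.symm u.1, b) := by
      unfold UU
      have e : (σ ^ (-(k + 1 : ℤ))) (σ.symm u.1) = (σ ^ (-(((k + 1 : ℕ) : ℤ) + 1))) u.1 := by
        have : σ.symm u.1 = (σ ^ (-1 : ℤ)) u.1 := by rw [_root_.zpow_neg_one]; rfl
        rw [this, ← Equiv.Perm.mul_apply, ← _root_.zpow_add]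
        congr 2
      rw [e]; exact hb1
    have h1 : n (σ.symm u.1) = n u.1 := by
      have := D.hn (σ.symm u.1); rw [Equiv.apply_symm_apply] at this; exact this.symm
    by_cases hbt : u.2 = τ b
    · obtain ⟨v, hv, hv'⟩ := ih (by omega) _ hU
      refine ⟨v, ?_, ?_⟩
      · have : (om σ τ) (σ.symm u.1, b) = u := by
          rw [om_apply, Equiv.apply_symm_apply, ← hbt]
        rw [← this, Equiv.Perm.sameCycle_apply_left]
        exact hv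
      · rw [h1] at hv'; exact hv'
    · refine ⟨u, Equiv.Perm.SameCycle.refl _ _, ?_⟩
      have h2 : Bl b u.2 ≠ 0 := by
        rw [D.hB, Matrix.add_apply, Th_apply, if_neg hbt, zero_add] at hb2
        exact hb2
      have h3 := D.Y_ge t ht k (by omega) _ hU
      rw [h1] at h3
      have h4 := mul_entry_le (YY σ n m A r12 R2 t) Bl (σ.symm u.1) b u.2
      have h5 := pow_gt (n u.1) M (t - 1 - k) (D.hpn _) (by omega)
      rw [Matrix.add_apply]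
      have h6 : 1 ≤ Bl b u.2 := Nat.one_le_iff_ne_zero.2 h2
      have h7 : YY σ n m A r12 R2 t (σ.symm u.1) b ≤
          YY σ n m A r12 R2 t (σ.symm u.1) b * Bl b u.2 := Nat.le_mul_of_pos_right _ h6
      have h3' : n u.1 ^ (t - 1 - k) ≤ YY σ n m A r12 R2 t (σ.symm u.1) b := h3
      omega

theorem Dat.condA (D : Dat σ n m A m' B τ w lvl Bl r r12 R2 s0 s12 S2 l) (t K M : ℕ)
    (ht : σ ^ t = 1) (hK : K + M + 2 ≤ t)
    (hKV : ∀ u : γ × β, (∃ k, VV σ m R2 B k u) → ∃ k ≤ K, VV σ m R2 B k u)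
    (u : γ × β) (hu : YY σ n m A r12 R2 t u.1 u.2 ≠ 0) :
    ∃ v, (om σ τ).SameCycle u v ∧ (w u.2 - 1) * M < (m * (A ^ t * R2)) (σ.symm v.1) v.2 := by
  -- positivity of (Y B^l)
  have h1 := mul_pow_ge (YY σ n m A r12 R2 t) B τ w D.hw D.hBw u.1 u.2 l
  have h2 : 0 < (YY σ n m A r12 R2 t * B ^ l) u.1 ((τ ^ l) u.2) :=
    lt_of_lt_of_le (Nat.mul_pos (Nat.pos_of_ne_zero hu) (pow_pos (D.hpw _) _)) h1
  have h3 : (YY σ n m A r12 R2 t * B ^ l) u.1 ((τ ^ l) u.2) ≤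
      (PP (Th σ n) m A (t + l) * R2) u.1 ((τ ^ l) u.2) := by
    rw [← D.S2R2, ← D.E3 t, Matrix.add_mul, ← Matrix.mul_assoc, Matrix.add_apply]
    exact Nat.le_add_left _ _
  have h4 : (PP (Th σ n) m A (t + l) * R2) u.1 ((τ ^ l) u.2) ≠ 0 := by omega
  have h5 : PP (Th σ n) m A (t + l) * R2 =
      ∑ k ∈ Finset.range (t + l), Th σ n ^ (t + l - 1 - k) * (m * (R2 * B ^ k)) := by
    unfold PP
    rw [Matrix.sum_mul]
    refine Finset.sum_congr rfl fun k _ => ?_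
    rw [Matrix.mul_assoc, Matrix.mul_assoc, D.AR2]
  rw [h5, Matrix.sum_apply] at h4
  obtain ⟨k, hk, hk'⟩ := Finset.exists_ne_zero_of_sum_ne_zero h4
  rw [Th_pow_mul σ n D.hn] at hk'
  have hkt := Finset.mem_range.1 hk
  have hV : VV σ m R2 B k ((om σ τ ^ l) u) := by
    have e0 : (om σ τ ^ l) u = ((σ ^ l) u.1, (τ ^ l) u.2) := by
      clear hk hk' h5 h4 h3 h2 h1 hkt
      have : ∀ p : ℕ, (om σ τ ^ p) u = ((σ ^ p) u.1, (τ ^ p) u.2) := by
        intro p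
        induction p with
        | zero => simp
        | succ p ih => rw [pow_succ', Equiv.Perm.mul_apply, ih, om_apply]; simp [pow_succ']
      exact this l
    rw [e0]
    unfold VV
    have e2 : (σ ^ (t + l - 1 - k)) u.1 = (σ ^ (-(k + 1 : ℤ))) ((σ ^ l) u.1) := by
      rw [← zpow_natCast σ l, ← zpow_natCast σ (t + l - 1 - k), ← Equiv.Perm.mul_apply (σ ^ _),
        ← _root_.zpow_add, perm_shift σ t ht _ (-(k + 1 : ℤ) + l) (by omega)]
    rw [e2] at hk'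
    exact fun h0 => hk' (by rw [h0, mul_zero])
  obtain ⟨k1, hk1, hV1⟩ := hKV _ ⟨k, hV⟩
  have e0 : ∀ p : ℕ, (om σ τ ^ p) u = ((σ ^ p) u.1, (τ ^ p) u.2) := by
    intro p
    clear hV1 hV hk hk' h5 h4 h3 h2 h1 hkt
    induction p with
    | zero => simp
    | succ p ih => rw [pow_succ', Equiv.Perm.mul_apply, ih, om_apply]; simp [pow_succ']
  refine ⟨(om σ τ ^ (t - k1 + l)) u, by rw [Equiv.Perm.sameCycle_pow_right], ?_⟩
  rw [e0]
  rw [e0] at hV1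
  unfold VV at hV1
  simp only at hV1 ⊢
  have e3 : σ.symm ((σ ^ (t - k1 + l)) u.1) = (σ ^ (-(k1 + 1 : ℤ))) ((σ ^ l) u.1) := by
    have : ∀ x, σ.symm x = (σ ^ (-1 : ℤ)) x := fun x => by rw [_root_.zpow_neg_one]; rfl
    rw [this, ← zpow_natCast σ l, ← zpow_natCast σ (t - k1 + l), ← Equiv.Perm.mul_apply,
      ← Equiv.Perm.mul_apply, ← _root_.zpow_add, ← _root_.zpow_add,
      perm_shift σ t ht _ (-(k1 + 1 : ℤ) + l) (by omega)]
  rw [e3]
  have e4 : (τ ^ (t - k1 + l)) u.2 = (τ ^ (t - k1)) ((τ ^ l) u.2) := by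
    rw [pow_add, Equiv.Perm.mul_apply]
  rw [e4]
  have e5 : m * (A ^ t * R2) = (m * (R2 * B ^ k1)) * B ^ (t - k1) := by
    rw [D.AR2, Matrix.mul_assoc, Matrix.mul_assoc, ← pow_add]
    congr 3
    omega
  rw [e5]
  have h6 := mul_pow_ge (m * (R2 * B ^ k1)) B τ w D.hw D.hBw
    ((σ ^ (-(k1 + 1 : ℤ))) ((σ ^ l) u.1)) ((τ ^ l) u.2) (t - k1)
  have hwl : w ((τ ^ l) u.2) = w u.2 := by
    clear h6 e5 e4 e3 hV1 hV hk hk' h5 h4 h3 h2 h1
    have : ∀ p : ℕ, w ((τ ^ p) u.2) = w u.2 := by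
      intro p
      induction p with
      | zero => simp
      | succ p ih => rw [pow_succ', Equiv.Perm.mul_apply, D.hw, ih]
    exact this l
  rw [hwl] at h6
  have h7 := pow_gt (w u.2) M (t - k1) (D.hpw _) (by omega)
  have h8 := Nat.pos_of_ne_zero hV1
  calc (w u.2 - 1) * M < w u.2 ^ (t - k1) := h7
    _ = 1 * w u.2 ^ (t - k1) := (one_mul _).symm
    _ ≤ _ := Nat.mul_le_mul_right _ h8
    _ ≤ _ := h6

theorem Dat.fire (D : Dat σ n m A m' B τ w lvl Bl r r12 R2 s0 s12 S2 l) (t K : ℕ)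
    (ht : σ ^ t = 1) (hK : K + Fintype.card (γ × β) + 2 ≤ t)
    (hKU : ∀ u : γ × β, (∃ k, UU σ m' B k u) → ∃ k ≤ K, UU σ m' B k u)
    (hKV : ∀ u : γ × β, (∃ k, VV σ m R2 B k u) → ∃ k ≤ K, VV σ m R2 B k u) :
    CH ⟨γ ⊕ β, fromBlocks (Th σ n) (m * (A ^ t * R2)) 0 B⟩
      ⟨γ ⊕ β, fromBlocks (Th σ n) (Th σ n ^ t * (diagonal r * m')) 0 B⟩
      (fromBlocks 1 (YY σ n m A r12 R2 t) 0 1) := by
  refine exec σ n D.hn τ w D.hw lvl D.hl B Bl D.hB D.hBl (m * (A ^ t * R2)) _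
    (YY σ n m A r12 R2 t) _ rfl (D.main_eq t) ?_ ?_
  · intro u hu _
    exact D.condA t K _ ht hK hKV u hu
  · intro u hu _
    obtain ⟨k, hk, hk'⟩ := hKU u (D.supp_U t ht u hu)
    obtain ⟨v, hv, hv'⟩ := D.condB_aux t K (Fintype.card (γ × β)) ht hK k hk u hk'
    refine lt_of_lt_of_le hv' ?_
    exact Finset.single_le_sum (f := fun v : γ × β =>
      (Th σ n ^ t * (diagonal r * m') + YY σ n m A r12 R2 t * Bl) (σ.symm v.1) v.2)
      (fun _ _ => Nat.zero_le _) (mem_orb.2 hv)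

theorem Dat.block_step (D : Dat σ n m A m' B τ w lvl Bl r r12 R2 s0 s12 S2 l)
    (hIH : ∃ L1, 1 ≤ L1 ∧ ∀ f, 1 ≤ f → CH ⟨α, A⟩ ⟨β, B⟩ (A ^ (L1 * f) * R2)) :
    ∃ L, 1 ≤ L ∧ ∀ f, 1 ≤ f → CH ⟨γ ⊕ α, fromBlocks (Th σ n) m 0 A⟩
      ⟨γ ⊕ β, fromBlocks (Th σ n) m' 0 B⟩
      ((fromBlocks (Th σ n) m 0 A) ^ (L * f) * fromBlocks (diagonal r) r12 0 R2) := by
  obtain ⟨L1, hL1, hCH⟩ := hIH
  obtain ⟨K0, hK0⟩ := bound_exists (P := γ × β) (UU σ m' B)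
  obtain ⟨K1, hK1⟩ := bound_exists (P := γ × β) (VV σ m R2 B)
  set C := K0 + K1 + Fintype.card (γ × β) + 2 with hC
  have hord : 0 < orderOf σ := orderOf_pos σ
  refine ⟨L1 * (orderOf σ * C), Nat.mul_pos hL1 (Nat.mul_pos hord (by omega)), ?_⟩
  intro f hf
  set t := L1 * (orderOf σ * C) * f with ht
  have ht1 : t = L1 * (orderOf σ * C * f) := by rw [ht]; ring
  have ht2 : t = orderOf σ * (L1 * C * f) := by rw [ht]; ring
  have hσt : σ ^ t = 1 := by rw [ht2, pow_mul, pow_orderOf_eq_one, one_pow]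
  have htC : C ≤ t := by
    have : t = C * (L1 * orderOf σ * f) := by rw [ht]; ring
    rw [this]
    exact Nat.le_mul_of_pos_right _ (Nat.mul_pos (Nat.mul_pos hL1 hord) hf)
  have c1 := (hCH (orderOf σ * C * f)
    (Nat.mul_pos (Nat.mul_pos hord (by omega)) hf)).lift (Th σ n) m
  rw [← ht1] at c1
  have c2 := D.fire t (K0 + K1) hσt (by omega)
    (fun u hu => by obtain ⟨k, hk, h⟩ := hK0 u hu; exact ⟨k, by omega, h⟩)
    (fun u hu => by obtain ⟨k, hk, h⟩ := hK1 u hu; exact ⟨k, by omega, h⟩)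
  have c3 := scale_Th σ n (diagonal r * m') B t
  have c4 := scale_pow σ n D.hn D.hpn B l r D.hrd D.hrs m'
  have c5 := ((c1.trans c2).trans c3).trans c4
  convert c5 using 1
  change (fromBlocks (Th σ n) m 0 A) ^ t * fromBlocks (diagonal r) r12 0 R2 =
    fromBlocks 1 0 0 (A ^ t * R2) * fromBlocks 1 (YY σ n m A r12 R2 t) 0 1 *
      fromBlocks (Th σ n ^ t) 0 0 1 * fromBlocks (diagonal r) 0 0 1
  rw [AtR, Matrix.fromBlocks_multiply, Matrix.fromBlocks_multiply, Matrix.fromBlocks_multiply]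
  simp

end step

end Pool.Agent.H812R2.SSE
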