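import Mathlib

/-!
# Chains of elementary strong shift equivalences over `ℕ` with their total product

`CH X Y ρ`: there is a chain `X = X₀, X₁, …, X_k = Y`, `X_{i-1} = R_i S_i`, `X_i = S_i R_i`,
with `ρ = R₁ R₂ ⋯ R_k`.
-/

set_option autoImplicit false

namespace Pool.Agent.H812R2.SSE

open Matrix

/-- A square matrix over `ℕ` indexed by an arbitrary finite type. -/
structure Obj where
  ι : Type
  [fin : Fintype ι]
  [dec : DecidableEq ι]
  M : Matrix ι ι ℕ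

attribute [instance] Obj.fin Obj.dec

inductive CH : (X Y : Obj) → Matrix X.ι Y.ι ℕ → Prop
  | refl (X : Obj) : CH X X 1
  | step (X Y Z : Obj) (R : Matrix X.ι Y.ι ℕ) (S : Matrix Y.ι X.ι ℕ) (ρ : Matrix Y.ι Z.ι ℕ)
      (h1 : X.M = R * S) (h2 : Y.M = S * R) (h : CH Y Z ρ) : CH X Z (R * ρ)

theorem CH.single {X Y : Obj} (R : Matrix X.ι Y.ι ℕ) (S : Matrix Y.ι X.ι ℕ)
    (h1 : X.M = R * S) (h2 : Y.M = S * R) : CH X Y R := by
  have h := CH.step X Y Y R S 1 h1 h2 (CH.refl Y)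
  simpa using h

theorem CH.trans {X Y Z : Obj} {ρ : Matrix X.ι Y.ι ℕ} {ρ' : Matrix Y.ι Z.ι ℕ}
    (h : CH X Y ρ) (h' : CH Y Z ρ') : CH X Z (ρ * ρ') := by
  induction h with
  | refl X => simpa using h'
  | step X Y Z' R S ρ h1 h2 _ ih =>
    rw [Matrix.mul_assoc]
    exact CH.step X Y Z R S (ρ * ρ') h1 h2 (ih h')

theorem CH.lift {X Y : Obj} {ρ : Matrix X.ι Y.ι ℕ} (h : CH X Y ρ) {κ : Type} [Fintype κ]
    [DecidableEq κ] (P : Matrix κ κ ℕ) (m : Matrix κ X.ι ℕ) :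
    CH ⟨κ ⊕ X.ι, fromBlocks P m 0 X.M⟩ ⟨κ ⊕ Y.ι, fromBlocks P (m * ρ) 0 Y.M⟩
      (fromBlocks 1 0 0 ρ) := by
  induction h with
  | refl X =>
    rw [Matrix.mul_one, Matrix.fromBlocks_one]
    exact CH.refl _
  | step X Y Z R S ρ h1 h2 _ ih =>
    have ih' := ih (m * R)
    have e : (fromBlocks (1 : Matrix κ κ ℕ) 0 0 (R * ρ)) =
        fromBlocks (1 : Matrix κ κ ℕ) 0 0 R * fromBlocks (1 : Matrix κ κ ℕ) 0 0 ρ := by
      rw [Matrix.fromBlocks_multiply]; simp
    rw [e, ← Matrix.mul_assoc]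
    refine CH.step ⟨κ ⊕ X.ι, fromBlocks P m 0 X.M⟩ ⟨κ ⊕ Y.ι, fromBlocks P (m * R) 0 Y.M⟩ _
      (fromBlocks 1 0 0 R) (fromBlocks P m 0 S) _ ?_ ?_ ih'
    · simp only [Matrix.fromBlocks_multiply, h1]; simp
    · simp only [Matrix.fromBlocks_multiply, h2]; simp

theorem CH.iso {α α' : Type} [Fintype α] [DecidableEq α] [Fintype α'] [DecidableEq α']
    (e : α ≃ α') (A : Matrix α α ℕ) :
    CH ⟨α, A⟩ ⟨α', A.submatrix e.symm e.symm⟩ ((1 : Matrix α' α' ℕ).submatrix e id) := by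
  refine CH.single (X := ⟨α, A⟩) (Y := ⟨α', A.submatrix e.symm e.symm⟩) _ (A.submatrix e.symm id) ?_ ?_
  · ext i j
    simp [Matrix.mul_apply, Matrix.one_apply]
  · ext i j
    simp only [Matrix.mul_apply, Matrix.submatrix_apply, Matrix.one_apply, id]
    rw [Finset.sum_eq_single (e.symm j)]
    · simp
    · intro b _ hb
      rw [if_neg, Nat.mul_zero]
      intro h; exact hb (by rw [← h]; simp)
    · intro h; exact absurd (Finset.mem_univ _) h

theorem CH.reindex {α α' β β' : Type} [Fintype α] [DecidableEq α] [Fintype α'] [DecidableEq α']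
    [Fintype β] [DecidableEq β] [Fintype β'] [DecidableEq β']
    (e : α ≃ α') (f : β ≃ β') (A : Matrix α α ℕ) (B : Matrix β β ℕ) (ρ : Matrix α β ℕ)
    (h : CH ⟨α', A.submatrix e.symm e.symm⟩ ⟨β', B.submatrix f.symm f.symm⟩
      (ρ.submatrix e.symm f.symm)) : CH ⟨α, A⟩ ⟨β, B⟩ ρ := by
  have h1 := CH.iso e A
  have h2 := CH.iso f.symm (B.submatrix f.symm f.symm)
  have e3 : (B.submatrix f.symm f.symm).submatrix f.symm.symm f.symm.symm = B := by
    ext i j; simp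
  rw [e3] at h2
  have h4 := (h1.trans h).trans h2
  convert h4 using 1
  change ρ = (1 : Matrix α' α' ℕ).submatrix e id * ρ.submatrix e.symm f.symm *
    (1 : Matrix β β ℕ).submatrix f.symm id
  have k1 : (1 : Matrix α' α' ℕ).submatrix e id * ρ.submatrix e.symm f.symm =
      ρ.submatrix id f.symm := by
    have := Matrix.one_submatrix_mul (α := ℕ) (e : α → α') (Equiv.refl α') (ρ.submatrix e.symm f.symm)
    simp only [Equiv.coe_refl] at this
    rw [this]
    ext i j; simp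
  rw [k1]
  have := Matrix.mul_submatrix_one (α := ℕ) (f.symm) (id : β → β) (ρ.submatrix id f.symm)
  rw [this]
  ext i j; simp

end Pool.Agent.H812R2.SSE
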