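import Pool.Agent.H812R2.SSE.Main

/-!
# Replacing components, and realising shift equivalences
-/

set_option autoImplicit false
set_option linter.unusedSectionVars false
set_option linter.unusedVariables false

namespace Pool.Agent.H812R2.SSE

open Matrix

/-- reversing a chain, with control of the product -/
theorem CH.rev' {X Y : Obj} {ρ : Matrix X.ι Y.ι ℕ} (h : CH X Y ρ) :
    X.M * ρ = ρ * Y.M ∧ ∃ (ρ' : Matrix Y.ι X.ι ℕ) (a : ℕ), CH Y X ρ' ∧ ρ * ρ' = X.M ^ a ∧
      ρ' * ρ = Y.M ^ a ∧ Y.M * ρ' = ρ' * X.M := by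
  induction h with
  | refl X => exact ⟨by simp, 1, 0, CH.refl X, by simp, by simp, by simp⟩
  | step X Y Z R S ρ h1 h2 _ ih =>
    obtain ⟨i1, ρ', a, i2, i3, i4, i5⟩ := ih
    have hXR : X.M * R = R * Y.M := by rw [h1, h2, Matrix.mul_assoc]
    have hYS : Y.M * S = S * X.M := by rw [h1, h2, Matrix.mul_assoc]
    refine ⟨?_, ρ' * S, a + 1, i2.trans (CH.single S R h2 h1), ?_, ?_, ?_⟩
    · rw [← Matrix.mul_assoc, hXR, Matrix.mul_assoc, i1, Matrix.mul_assoc]
    · calc R * ρ * (ρ' * S) = R * (ρ * ρ') * S := by simp only [Matrix.mul_assoc]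
        _ = R * Y.M ^ a * S := by rw [i3]
        _ = X.M ^ a * R * S := by rw [semiconj_pow X.M Y.M R hXR]
        _ = X.M ^ (a + 1) := by rw [Matrix.mul_assoc, ← h1, pow_succ]
    · calc ρ' * S * (R * ρ) = ρ' * (S * R) * ρ := by simp only [Matrix.mul_assoc]
        _ = ρ' * (Y.M * ρ) := by rw [← h2, Matrix.mul_assoc]
        _ = ρ' * ρ * Z.M := by rw [i1, Matrix.mul_assoc]
        _ = Z.M ^ (a + 1) := by rw [i4, pow_succ]
    · rw [← Matrix.mul_assoc, i5, Matrix.mul_assoc, hYS, Matrix.mul_assoc]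

/-- the realisation theorem for structured matrices -/
theorem real_str {α β : Type} [Fintype α] [DecidableEq α] [Fintype β] [DecidableEq β]
    (A : Matrix α α ℕ) (B : Matrix β β ℕ) (σ : Equiv.Perm α) (lvlA : α → ℕ)
    (τ : Equiv.Perm β) (lvlB : β → ℕ) (sA : Str A σ lvlA) (sB : Str B τ lvlB)
    (l : ℕ) (hl : 1 ≤ l) (R : Matrix α β ℕ) (S : Matrix β α ℕ) (h1 : R * S = A ^ l)
    (h2 : S * R = B ^ l) (h3 : A * R = R * B) (h4 : S * A = B * S) :
    ∃ t, CH ⟨α, A⟩ ⟨β, B⟩ (A ^ t * R) := by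
  obtain ⟨α', i1, i2, A', σ', lvlA', ρ, sA', hA', cA⟩ := reduce _ α A σ lvlA sA rfl
  obtain ⟨β', j1, j2, B', τ', lvlB', ρ', sB', hB', cB⟩ := reduce _ β B τ lvlB sB rfl
  obtain ⟨a1, ρs, a, a2, a3, a4, a5⟩ := cA.rev'
  obtain ⟨b1, ρs', b, b2, b3, b4, b5⟩ := cB.rev'
  change A * ρ = ρ * A' at a1
  change ρ * ρs = A ^ a at a3
  change ρs * ρ = A' ^ a at a4
  change A' * ρs = ρs * A at a5
  change B * ρ' = ρ' * B' at b1
  change ρ' * ρs' = B ^ b at b3
  change ρs' * ρ' = B' ^ b at b4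
  change B' * ρs' = ρs' * B at b5
  -- the shift equivalence between A' and B'
  set R' : Matrix α' β' ℕ := ρs * (R * ρ') with hR'
  set S' : Matrix β' α' ℕ := ρs' * (S * ρ) with hS'
  have p1 : R' * S' = A' ^ (a + l + b) := by
    calc R' * S' = ρs * R * (ρ' * ρs') * S * ρ := by rw [hR', hS']; simp only [Matrix.mul_assoc]
      _ = ρs * (R * B ^ b) * S * ρ := by rw [b3]; simp only [Matrix.mul_assoc]
      _ = ρs * (A ^ b * R) * S * ρ := by rw [semiconj_pow A B R h3]
      _ = ρs * A ^ b * (R * S) * ρ := by simp only [Matrix.mul_assoc]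
      _ = ρs * A ^ (b + l) * ρ := by rw [h1, Matrix.mul_assoc ρs, ← pow_add]
      _ = A' ^ (b + l) * ρs * ρ := by rw [semiconj_pow A' A ρs a5]
      _ = A' ^ (a + l + b) := by rw [Matrix.mul_assoc, a4, ← pow_add]; congr 1; ring
  have p2 : S' * R' = B' ^ (a + l + b) := by
    have hS4 : B ^ a * S = S * A ^ a := semiconj_pow B A S h4.symm a
    calc S' * R' = ρs' * S * (ρ * ρs) * R * ρ' := by rw [hR', hS']; simp only [Matrix.mul_assoc]
      _ = ρs' * (S * A ^ a) * R * ρ' := by rw [a3]; simp only [Matrix.mul_assoc]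
      _ = ρs' * (B ^ a * S) * R * ρ' := by rw [hS4]
      _ = ρs' * B ^ a * (S * R) * ρ' := by simp only [Matrix.mul_assoc]
      _ = ρs' * B ^ (a + l) * ρ' := by rw [h2, Matrix.mul_assoc ρs', ← pow_add]
      _ = B' ^ (a + l) * ρs' * ρ' := by rw [semiconj_pow B' B ρs' b5]
      _ = B' ^ (a + l + b) := by rw [Matrix.mul_assoc, b4, ← pow_add]
  have p3 : A' * R' = R' * B' := by
    calc A' * R' = (A' * ρs) * (R * ρ') := by rw [hR', Matrix.mul_assoc]
      _ = ρs * (A * R) * ρ' := by rw [a5]; simp only [Matrix.mul_assoc]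
      _ = ρs * R * (B * ρ') := by rw [h3]; simp only [Matrix.mul_assoc]
      _ = R' * B' := by rw [b1, hR']; simp only [Matrix.mul_assoc]
  have p4 : S' * A' = B' * S' := by
    symm
    calc B' * S' = (B' * ρs') * (S * ρ) := by rw [hS', Matrix.mul_assoc]
      _ = ρs' * (B * S) * ρ := by rw [b5]; simp only [Matrix.mul_assoc]
      _ = ρs' * S * (A * ρ) := by rw [← h4]; simp only [Matrix.mul_assoc]
      _ = S' * A' := by rw [a1, hS']; simp only [Matrix.mul_assoc]
  obtain ⟨L, hL, hCH⟩ := core _ α' β' A' B' σ' lvlA' τ' lvlB' sA' sB' hA' hB' R' S'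
    (a + l + b) (by omega) p3 p4 p1 p2 rfl
  refine ⟨L * 1 + a + b, ?_⟩
  have c := (cA.trans (hCH 1 le_rfl)).trans b2
  convert c using 1
  change A ^ (L * 1 + a + b) * R = ρ * (A' ^ (L * 1) * R') * ρs'
  calc A ^ (L * 1 + a + b) * R = A ^ (L * 1 + a) * (A ^ b * R) := by
        rw [pow_add _ (L * 1 + a), Matrix.mul_assoc]
    _ = A ^ (L * 1) * A ^ a * (R * B ^ b) := by rw [semiconj_pow A B R h3, ← pow_add]
    _ = (A ^ (L * 1) * ρ) * ρs * (R * (ρ' * ρs')) := by
        rw [← a3, b3]; simp only [Matrix.mul_assoc]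
    _ = (ρ * A' ^ (L * 1)) * ρs * (R * (ρ' * ρs')) := by rw [semiconj_pow A A' ρ a1]
    _ = ρ * (A' ^ (L * 1) * R') * ρs' := by rw [hR']; simp only [Matrix.mul_assoc]

/-- replacing the first diagonal block -/
theorem CH.replace {X Y : Obj} {ρ : Matrix X.ι Y.ι ℕ} (h : CH X Y ρ) {κ : Type} [Fintype κ]
    [DecidableEq κ] (Q : Matrix κ κ ℕ) (Z : Matrix X.ι κ ℕ) :
    ∃ (Z' : Matrix Y.ι κ ℕ) (ρ' : Matrix (X.ι ⊕ κ) (Y.ι ⊕ κ) ℕ),
      CH ⟨X.ι ⊕ κ, fromBlocks X.M Z 0 Q⟩ ⟨Y.ι ⊕ κ, fromBlocks Y.M Z' 0 Q⟩ ρ' := by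
  induction h with
  | refl X => exact ⟨Z, 1, CH.refl _⟩
  | step X Y W R S ρ h1 h2 _ ih =>
    obtain ⟨Z', ρ', h'⟩ := ih (S * Z)
    refine ⟨Z', fromBlocks R Z 0 Q * ρ', ?_⟩
    refine CH.step ⟨X.ι ⊕ κ, fromBlocks X.M Z 0 Q⟩ ⟨Y.ι ⊕ κ, fromBlocks Y.M (S * Z) 0 Q⟩ _
      (fromBlocks R Z 0 Q) (fromBlocks S 0 0 1) _ ?_ ?_ h'
    · simp only [Matrix.fromBlocks_multiply, h1]; simp
    · simp only [Matrix.fromBlocks_multiply, h2]; simp

section comp

/-- mutual reachability -/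
def Mut {α : Type} [Fintype α] [DecidableEq α] (A : Matrix α α ℕ) (i j : α) : Prop :=
  Rch A i j ∧ Rch A j i

open Classical in
/-- the component of `i` as an object -/
noncomputable def compO {α : Type} [Fintype α] [DecidableEq α] (A : Matrix α α ℕ) (i : α) : Obj :=
  ⟨{j // Mut A i j}, fun a b => A a.1 b.1⟩

/-- the property: strong shift equivalent to a structured matrix -/
def SStr (X : Obj) : Prop :=
  ∃ (Y : Obj) (σ : Equiv.Perm Y.ι) (lvl : Y.ι → ℕ) (ρ : Matrix X.ι Y.ι ℕ), Str Y.M σ lvl ∧ CH X Y ρ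

theorem SStr.of_ch {X Y : Obj} {ρ : Matrix X.ι Y.ι ℕ} (h : CH X Y ρ) (hY : SStr Y) : SStr X := by
  obtain ⟨Z, σ, lvl, ρ', s, c⟩ := hY
  exact ⟨Z, σ, lvl, _, s, h.trans c⟩

theorem Mut.trans {α : Type} [Fintype α] [DecidableEq α] {A : Matrix α α ℕ} {i j k : α}
    (h : Mut A i j) (h' : Mut A j k) : Mut A i k := ⟨h.1.trans h'.1, h'.2.trans h.2⟩

theorem Mut.symm {α : Type} [Fintype α] [DecidableEq α] {A : Matrix α α ℕ} {i j : α}
    (h : Mut A i j) : Mut A j i := ⟨h.2, h.1⟩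

theorem Mut.refl {α : Type} [Fintype α] [DecidableEq α] (A : Matrix α α ℕ) (i : α) : Mut A i i :=
  ⟨Rch.refl A i, Rch.refl A i⟩

theorem block_str {X Y : Obj} {σ : Equiv.Perm X.ι} {lvl : X.ι → ℕ} {τ : Equiv.Perm Y.ι}
    {lvl' : Y.ι → ℕ} (s : Str X.M σ lvl) (s' : Str Y.M τ lvl') (Z : Matrix X.ι Y.ι ℕ) :
    Str (fromBlocks X.M Z 0 Y.M) (Equiv.sumCongr σ τ)
      (Sum.elim lvl (fun b => lvl' b + (Finset.univ.sup lvl + 1))) := by
  refine ⟨?_, ?_, ?_⟩
  · rintro (a | a)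
    · exact s.hl a
    · change lvl' (τ a) + _ = lvl' a + _
      rw [s'.hl]
  · rintro (a | a) (b | b) hab
    · rcases s.he a b hab with h | h
      · left; rw [h]; rfl
      · right; exact h
    · right
      change lvl a < lvl' b + (Finset.univ.sup lvl + 1)
      have := Finset.le_sup (f := lvl) (Finset.mem_univ a)
      omega
    · exact absurd rfl hab
    · rcases s'.he a b hab with h | h
      · left; rw [h]; rfl
      · right; exact Nat.add_lt_add_right h _
  · rintro (a | a)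
    · rcases s.h1 a with h | h
      · left
        change Sum.inl (σ a) = Sum.inl a
        rw [h]
      · right; exact h
    · rcases s'.h1 a with h | h
      · left
        change Sum.inr (τ a) = Sum.inr a
        rw [h]
      · right; exact h

theorem reduce2 : ∀ (N : ℕ) (α : Type) [Fintype α] [DecidableEq α] (A : Matrix α α ℕ)
    (_ : ∀ i, SStr (compO A i)), Fintype.card α = N → SStr ⟨α, A⟩ := by
  intro N
  induction N using Nat.strong_induction_on with
  | _ N ih =>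
  intro α _ _ A hA hN
  classical
  rcases isEmpty_or_nonempty α with hα | hα
  · refine ⟨⟨α, A⟩, 1, fun _ => 0, 1, ⟨fun a => rfl, fun a => hα.elim a, fun a => hα.elim a⟩,
      CH.refl _⟩
  · obtain ⟨u0, _, hu0⟩ := Finset.exists_min_image (Finset.univ : Finset α)
      (fun i => (Finset.univ.filter (fun w => Rch A w i)).card)
      (by obtain ⟨a⟩ := hα; exact ⟨a, Finset.mem_univ _⟩)
    set p : α → Prop := fun u => Mut A u0 u with hp
    have hpred : ∀ w u, A w u ≠ 0 → p u → p w := by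
      intro w u hwu hu
      have h1 : (Finset.univ.filter (fun x => Rch A x w)) ⊆
          (Finset.univ.filter (fun x => Rch A x u)) := by
        intro x
        simp only [Finset.mem_filter, Finset.mem_univ, true_and]
        exact fun h => h.trans (Rch.edge hwu)
      have h2 : (Finset.univ.filter (fun x => Rch A x u)) =
          (Finset.univ.filter (fun x => Rch A x u0)) := by
        ext x
        simp only [Finset.mem_filter, Finset.mem_univ, true_and]
        exact ⟨fun h => h.trans hu.2, fun h => h.trans hu.1⟩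
      have h3 : (Finset.univ.filter (fun x => Rch A x u)).card ≤
          (Finset.univ.filter (fun x => Rch A x w)).card := by
        rw [h2]; exact hu0 w (Finset.mem_univ _)
      have h4 := Finset.eq_of_subset_of_card_le h1 h3
      have h5 : u ∈ Finset.univ.filter (fun x => Rch A x w) := by
        rw [h4]; simp [Rch.refl]
      simp only [Finset.mem_filter, Finset.mem_univ, true_and] at h5
      exact Mut.trans hu ⟨h5, Rch.edge hwu⟩
    set C : Matrix {u // p u} {u // p u} ℕ := fun u v => A u.1 v.1 with hC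
    set m : Matrix {u // p u} {u // ¬ p u} ℕ := fun u v => A u.1 v.1 with hm
    set A1 : Matrix {u // ¬ p u} {u // ¬ p u} ℕ := fun u v => A u.1 v.1 with hA1
    set e : α ≃ {u // p u} ⊕ {u // ¬ p u} := (Equiv.sumCompl p).symm with he
    have he1 : ∀ u, e.symm (Sum.inl u) = u.1 := fun u => rfl
    have he2 : ∀ u, e.symm (Sum.inr u) = u.1 := fun u => rfl
    have bA : A.submatrix e.symm e.symm = fromBlocks C m 0 A1 := by
      ext i j
      rcases i with i | i <;> rcases j with j | j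
      · rfl
      · rfl
      · simp only [Matrix.submatrix_apply, he1, he2, Matrix.fromBlocks_apply₂₁, Matrix.zero_apply]
        by_contra hne
        exact i.2 (hpred i.1 j.1 hne j.2)
      · rfl
    have hpow : ∀ (k : ℕ) (a b : {u // ¬ p u}), (A1 ^ k) a b = (A ^ k) a.1 b.1 := by
      intro k a b
      have h1 := submatrix_pow A e.symm k
      rw [bA, block_pow] at h1
      have h2 := congrFun (congrFun h1 (Sum.inr a)) (Sum.inr b)
      rw [Matrix.fromBlocks_apply₂₂, Matrix.submatrix_apply] at h2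
      exact h2.symm
    have hR1 : ∀ a b : {u // ¬ p u}, Rch A1 a b ↔ Rch A a.1 b.1 := by
      intro a b
      unfold Rch
      simp only [hpow]
    have hM1 : ∀ a b : {u // ¬ p u}, Mut A1 a b ↔ Mut A a.1 b.1 := by
      intro a b
      unfold Mut
      rw [hR1, hR1]
    have hcard : Fintype.card {u // ¬ p u} < N := by
      rw [← hN]
      exact Fintype.card_subtype_lt (x := u0) (by simpa using Mut.refl A u0)
    have hA1' : ∀ i, SStr (compO A1 i) := by
      intro i
      let ε : {j : {u // ¬ p u} // Mut A1 i j} ≃ {j // Mut A i.1 j} :=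
        { toFun := fun j => ⟨j.1.1, (hM1 _ _).1 j.2⟩
          invFun := fun j => ⟨⟨j.1, fun h => i.2 (Mut.trans h j.2.symm)⟩, (hM1 _ _).2 j.2⟩
          left_inv := fun j => rfl
          right_inv := fun j => rfl }
      have c : CH (compO A1 i) ⟨{j // Mut A i.1 j}, _⟩ _ :=
        CH.iso ε (fun a b : {j : {u // ¬ p u} // Mut A1 i j} => A1 a.1 b.1)
      exact SStr.of_ch c (hA i.1)
    obtain ⟨Y1, σ1, lvl1, ρ1, s1, c1⟩ := ih _ hcard _ A1 hA1' rfl
    obtain ⟨Y0, σ0, lvl0, ρ0, s0, c0⟩ := hA u0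
    have d1 := CH.iso e A
    rw [bA] at d1
    have d2 := c1.lift C m
    have c00 : CH ⟨{u // p u}, C⟩ (compO A u0) _ := @CH.iso _ _ _ _ _ _ (Equiv.refl _) C
    obtain ⟨Z', ρ', d3⟩ := (c00.trans c0).replace Y1.M (m * ρ1)
    exact ⟨⟨Y0.ι ⊕ Y1.ι, fromBlocks Y0.M Z' 0 Y1.M⟩, _, _, _, block_str s0 s1 Z',
      (d1.trans d2).trans d3⟩

/-- **Realisation theorem** -/
theorem real_comp {α β : Type} [Fintype α] [DecidableEq α] [Fintype β] [DecidableEq β]
    (A : Matrix α α ℕ) (B : Matrix β β ℕ) (hA : ∀ i, SStr (compO A i))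
    (hB : ∀ i, SStr (compO B i))
    (l : ℕ) (hl : 1 ≤ l) (R : Matrix α β ℕ) (S : Matrix β α ℕ) (h1 : R * S = A ^ l)
    (h2 : S * R = B ^ l) (h3 : A * R = R * B) (h4 : S * A = B * S) :
    ∃ t, CH ⟨α, A⟩ ⟨β, B⟩ (A ^ t * R) := by
  obtain ⟨X', σ, lvlA, ρ, sA, cA⟩ := reduce2 _ α A hA rfl
  obtain ⟨Y', τ, lvlB, ρ', sB, cB⟩ := reduce2 _ β B hB rfl
  obtain ⟨a1, ρs, a, a2, a3, a4, a5⟩ := cA.rev'
  obtain ⟨b1, ρs', b, b2, b3, b4, b5⟩ := cB.rev'
  set A' := X'.M with hA'
  set B' := Y'.M with hB'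
  change A * ρ = ρ * A' at a1
  change ρ * ρs = A ^ a at a3
  change B * ρ' = ρ' * B' at b1
  change ρ' * ρs' = B ^ b at b3
  change A' * ρs = ρs * A at a5
  change B' * ρs' = ρs' * B at b5
  set R' : Matrix X'.ι Y'.ι ℕ := ρs * (R * ρ') with hR'
  set S' : Matrix Y'.ι X'.ι ℕ := ρs' * (S * ρ) with hS'
  have p1 : R' * S' = A' ^ (a + l + b) := by
    calc R' * S' = ρs * R * (ρ' * ρs') * S * ρ := by rw [hR', hS']; simp only [Matrix.mul_assoc]
      _ = ρs * (R * B ^ b) * S * ρ := by rw [b3]; simp only [Matrix.mul_assoc]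
      _ = ρs * (A ^ b * R) * S * ρ := by rw [semiconj_pow A B R h3]
      _ = ρs * A ^ b * (R * S) * ρ := by simp only [Matrix.mul_assoc]
      _ = ρs * A ^ (b + l) * ρ := by rw [h1, Matrix.mul_assoc ρs, ← pow_add]
      _ = A' ^ (b + l) * ρs * ρ := by rw [semiconj_pow A' A ρs a5]
      _ = A' ^ (a + l + b) := by rw [Matrix.mul_assoc, a4, ← pow_add]; congr 1; ring
  have p2 : S' * R' = B' ^ (a + l + b) := by
    have hS4 : B ^ a * S = S * A ^ a := semiconj_pow B A S h4.symm a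
    calc S' * R' = ρs' * S * (ρ * ρs) * R * ρ' := by rw [hR', hS']; simp only [Matrix.mul_assoc]
      _ = ρs' * (S * A ^ a) * R * ρ' := by rw [a3]; simp only [Matrix.mul_assoc]
      _ = ρs' * (B ^ a * S) * R * ρ' := by rw [hS4]
      _ = ρs' * B ^ a * (S * R) * ρ' := by simp only [Matrix.mul_assoc]
      _ = ρs' * B ^ (a + l) * ρ' := by rw [h2, Matrix.mul_assoc ρs', ← pow_add]
      _ = B' ^ (a + l) * ρs' * ρ' := by rw [semiconj_pow B' B ρs' b5]
      _ = B' ^ (a + l + b) := by rw [Matrix.mul_assoc, b4, ← pow_add]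
  have p3 : A' * R' = R' * B' := by
    calc A' * R' = (A' * ρs) * (R * ρ') := by rw [hR', Matrix.mul_assoc]
      _ = ρs * (A * R) * ρ' := by rw [a5]; simp only [Matrix.mul_assoc]
      _ = ρs * R * (B * ρ') := by rw [h3]; simp only [Matrix.mul_assoc]
      _ = R' * B' := by rw [b1, hR']; simp only [Matrix.mul_assoc]
  have p4 : S' * A' = B' * S' := by
    symm
    calc B' * S' = (B' * ρs') * (S * ρ) := by rw [hS', Matrix.mul_assoc]
      _ = ρs' * (B * S) * ρ := by rw [b5]; simp only [Matrix.mul_assoc]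
      _ = ρs' * S * (A * ρ) := by rw [← h4]; simp only [Matrix.mul_assoc]
      _ = S' * A' := by rw [a1, hS']; simp only [Matrix.mul_assoc]
  obtain ⟨L, hCH⟩ := real_str A' B' σ lvlA τ lvlB sA sB (a + l + b) (by omega) R' S' p1 p2 p3 p4
  refine ⟨L + a + b, ?_⟩
  have c := (cA.trans hCH).trans b2
  convert c using 1
  change A ^ (L + a + b) * R = ρ * (A' ^ L * R') * ρs'
  calc A ^ (L + a + b) * R = A ^ (L + a) * (A ^ b * R) := by
        rw [pow_add _ (L + a), Matrix.mul_assoc]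
    _ = A ^ L * A ^ a * (R * B ^ b) := by rw [semiconj_pow A B R h3, ← pow_add]
    _ = (A ^ L * ρ) * ρs * (R * (ρ' * ρs')) := by
        rw [← a3, b3]; simp only [Matrix.mul_assoc]
    _ = (ρ * A' ^ L) * ρs * (R * (ρ' * ρs')) := by rw [semiconj_pow A A' ρ a1]
    _ = ρ * (A' ^ L * R') * ρs' := by rw [hR']; simp only [Matrix.mul_assoc]

end comp

end Pool.Agent.H812R2.SSE
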