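import Pool.Agent.H812R2.SSE.Block

/-!
# Shift equivalent matrices whose components are cycles or single loops: the induction
-/

set_option autoImplicit false
set_option linter.unusedSectionVars false
set_option linter.unusedVariables false

namespace Pool.Agent.H812R2.SSE

open Matrix

/-- structure of a matrix all of whose strongly connected components are cycles or single vertices -/
structure Str {α : Type} (A : Matrix α α ℕ) (σ : Equiv.Perm α) (lvl : α → ℕ) : Prop where
  hl : ∀ a, lvl (σ a) = lvl a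
  he : ∀ a b, A a b ≠ 0 → b = σ a ∨ lvl a < lvl b
  h1 : ∀ a, σ a = a ∨ A a (σ a) = 1

section str

variable {α : Type} [Fintype α] [DecidableEq α] {A : Matrix α α ℕ} {σ : Equiv.Perm α} {lvl : α → ℕ}

theorem Str.wt (s : Str A σ lvl) (a : α) : A (σ a) (σ (σ a)) = A a (σ a) := by
  rcases s.h1 a with h | h
  · rw [h, h]
  · rcases s.h1 (σ a) with h' | h'
    · have h2 : σ a = a := σ.injective h'
      rw [h2, h2]
    · rw [h, h']

theorem Str.lvl_pow (s : Str A σ lvl) (k : ℕ) (a : α) : lvl ((σ ^ k) a) = lvl a := by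
  induction k with
  | zero => simp
  | succ k ih => rw [pow_succ', Equiv.Perm.mul_apply, s.hl, ih]

theorem Str.wt_pow (s : Str A σ lvl) (k : ℕ) (a : α) :
    A ((σ ^ k) a) (σ ((σ ^ k) a)) = A a (σ a) := by
  induction k with
  | zero => simp
  | succ k ih => rw [pow_succ', Equiv.Perm.mul_apply, s.wt, ih]

theorem Str.le (s : Str A σ lvl) {a b : α} (h : A a b ≠ 0) :
    lvl a ≤ lvl b ∧ (lvl a = lvl b → b = σ a) := by
  rcases s.he a b h with h | h
  · exact ⟨by rw [h, s.hl], fun _ => h⟩
  · exact ⟨h.le, fun h' => absurd h' h.ne⟩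

theorem Str.pow_le (s : Str A σ lvl) (k : ℕ) {a b : α} (h : (A ^ k) a b ≠ 0) :
    lvl a ≤ lvl b ∧ (lvl a = lvl b → b = (σ ^ k) a) := by
  induction k generalizing b with
  | zero =>
    have : a = b := by
      by_contra hne
      exact h (by rw [pow_zero, Matrix.one_apply_ne hne])
    subst this
    simp
  | succ k ih =>
    rw [pow_succ] at h
    obtain ⟨c, hc1, hc2⟩ := mul_ne_zero_entry _ _ _ _ h
    obtain ⟨i1, i2⟩ := ih hc1
    obtain ⟨j1, j2⟩ := s.le hc2
    refine ⟨i1.trans j1, fun hab => ?_⟩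
    have e1 : lvl a = lvl c := le_antisymm i1 (by rw [hab]; exact j1)
    have e2 : lvl c = lvl b := by rw [← e1, hab]
    rw [j2 e2, i2 e1, pow_succ', Equiv.Perm.mul_apply]

theorem Str.pow_diag (s : Str A σ lvl) (k : ℕ) (a : α) :
    (A ^ k) a ((σ ^ k) a) = A a (σ a) ^ k := by
  induction k with
  | zero => simp
  | succ k ih =>
    rw [pow_succ, pow_succ' σ, Equiv.Perm.mul_apply, Matrix.mul_apply, Finset.sum_eq_single ((σ ^ k) a)]
    · rw [ih, s.wt_pow, pow_succ]
    · intro c _ hc
      by_contra hne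
      have h1 : (A ^ k) a c ≠ 0 := fun h => hne (by rw [h, zero_mul])
      have h2 : A c (σ ((σ ^ k) a)) ≠ 0 := fun h => hne (by rw [h, mul_zero])
      obtain ⟨i1, i2⟩ := s.pow_le k h1
      obtain ⟨j1, j2⟩ := s.le h2
      rw [s.hl, s.lvl_pow] at j1
      exact hc (i2 (le_antisymm i1 j1))
    · intro h; exact absurd (Finset.mem_univ _) h

end str

theorem submatrix_pow {α α' : Type} [Fintype α] [DecidableEq α] [Fintype α'] [DecidableEq α']
    (A : Matrix α α ℕ) (e : α' ≃ α) (k : ℕ) :
    (A ^ k).submatrix e e = (A.submatrix e e) ^ k := by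
  induction k with
  | zero => simp
  | succ k ih => rw [pow_succ, pow_succ, ← ih, Matrix.submatrix_mul_equiv]

theorem subtypePerm_pow_val {α : Type} (σ : Equiv.Perm α) (p : α → Prop) (h : ∀ x, p (σ x) ↔ p x)
    (k : ℕ) (u : {x // p x}) : (((σ.subtypePerm h) ^ k) u).1 = (σ ^ k) u.1 := by
  induction k with
  | zero => simp
  | succ k ih =>
    rw [pow_succ', pow_succ', Equiv.Perm.mul_apply, Equiv.Perm.mul_apply, ← ih]
    rfl

theorem pow_ne_zero_of_path {α β : Type} [Fintype α] [DecidableEq α] [Fintype β] [DecidableEq β]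
    {X : Matrix α β ℕ} {Y : Matrix β α ℕ} {i j : α} {b : β} (h1 : X i b ≠ 0) (h2 : Y b j ≠ 0) :
    (X * Y) i j ≠ 0 := by
  have := mul_entry_le X Y i b j
  have h3 := Nat.mul_pos (Nat.pos_of_ne_zero h1) (Nat.pos_of_ne_zero h2)
  omega

theorem core : ∀ (N : ℕ) (α β : Type) [Fintype α] [DecidableEq α] [Fintype β] [DecidableEq β]
    (A : Matrix α α ℕ) (B : Matrix β β ℕ) (σ : Equiv.Perm α) (lvlA : α → ℕ)
    (τ : Equiv.Perm β) (lvlB : β → ℕ) (_ : Str A σ lvlA) (_ : Str B τ lvlB)
    (_ : ∀ a, A a (σ a) ≠ 0) (_ : ∀ b, B b (τ b) ≠ 0)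
    (R : Matrix α β ℕ) (S : Matrix β α ℕ) (l : ℕ) (_ : 1 ≤ l)
    (_ : A * R = R * B) (_ : S * A = B * S) (_ : R * S = A ^ l) (_ : S * R = B ^ l),
    Fintype.card α = N →
    ∃ L, 1 ≤ L ∧ ∀ f, 1 ≤ f → CH ⟨α, A⟩ ⟨β, B⟩ (A ^ (L * f) * R) := by
  intro N
  induction N using Nat.strong_induction_on with
  | _ N ih =>
  intro α β _ _ _ _ A B σ lvlA τ lvlB sA sB hpA hpB R S l hl hAR hSA hRS hSR hN
  classical
  rcases isEmpty_or_nonempty α with hα | hα
  · -- everything is empty
    have hβ : IsEmpty β := by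
      constructor
      intro b
      have h1 := sB.pow_diag l b
      rw [← hSR, Matrix.mul_apply] at h1
      have h2 : ∑ j : α, S b j * R j ((τ ^ l) b) = 0 := by
        rw [Finset.univ_eq_empty, Finset.sum_empty]
      rw [h2] at h1
      exact absurd h1.symm (pow_ne_zero _ (hpB b))
    refine ⟨1, le_refl _, fun f _ => ?_⟩
    refine CH.single (X := ⟨α, A⟩) (Y := ⟨β, B⟩) _ S ?_ ?_
    · ext i; exact hα.elim i
    · ext i; exact hβ.elim i
  · obtain ⟨u0, _, hu0⟩ := Finset.exists_min_image (Finset.univ : Finset α) lvlA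
      (by obtain ⟨a⟩ := hα; exact ⟨a, Finset.mem_univ _⟩)
    have hmin : ∀ u, lvlA u0 ≤ lvlA u := fun u => hu0 u (Finset.mem_univ _)
    set p : α → Prop := fun u => lvlA u = lvlA u0 with hp
    have hpσ : ∀ x, p (σ x) ↔ p x := fun x => by simp only [hp, sA.hl]
    have hpσk : ∀ (k : ℕ) x, p ((σ ^ k) x) ↔ p x := fun k x => by simp only [hp, sA.lvl_pow]
    -- predecessors
    have hpred : ∀ (k : ℕ) (u v : α), (A ^ k) u v ≠ 0 → p v → p u ∧ v = (σ ^ k) u := by
      intro k u v h hv
      obtain ⟨h1, h2⟩ := sA.pow_le k h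
      have h3 : lvlA u = lvlA u0 := le_antisymm (by rw [← (hv : lvlA v = lvlA u0)]; exact h1) (hmin u)
      exact ⟨h3, h2 (by rw [h3]; exact (hv : lvlA v = lvlA u0).symm)⟩
    have hpred1 : ∀ (u v : α), A u v ≠ 0 → p v → p u ∧ v = σ u := by
      intro u v h hv
      have := hpred 1 u v (by rwa [pow_one]) hv
      rwa [pow_one] at this
    set D : β → Prop := fun b => ∃ c, p c ∧ S b c ≠ 0 with hD
    -- R u b ≠ 0, D b → p u and more
    have hRD : ∀ u b, D b → R u b ≠ 0 → p u ∧ S b ((σ ^ l) u) ≠ 0 := by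
      intro u b hb hR
      obtain ⟨c, hc, hSc⟩ := hb
      have h1 : (A ^ l) u c ≠ 0 := by rw [← hRS]; exact pow_ne_zero_of_path hR hSc
      obtain ⟨h2, h3⟩ := hpred l u c h1 hc
      rw [h3] at hSc
      exact ⟨h2, hSc⟩
    have hpow : ∀ (k : ℕ) (u : α), (A ^ k) u ((σ ^ k) u) ≠ 0 := by
      intro k u; rw [sA.pow_diag]; exact pow_ne_zero _ (hpA u)
    have hpowB : ∀ (k : ℕ) (u : β), (B ^ k) u ((τ ^ k) u) ≠ 0 := by
      intro k u; rw [sB.pow_diag]; exact pow_ne_zero _ (hpB u)
    -- existence of g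
    have hex : ∀ u : α, p u → ∃ b, R u b ≠ 0 ∧ S b ((σ ^ l) u) ≠ 0 := by
      intro u hu
      have h1 := hpow l u
      rw [← hRS] at h1
      exact mul_ne_zero_entry _ _ _ _ h1
    -- uniqueness
    have huniq : ∀ (u : α) (b b' : β), D b → D b' → R u b ≠ 0 → R u b' ≠ 0 → b = b' := by
      intro u b b' hb hb' hR hR'
      have h1 := (hRD u b hb hR).2
      have h1' := (hRD u b' hb' hR').2
      -- return from σ^l u to u
      set o := orderOf σ with ho
      have hopos : 0 < o := orderOf_pos σ
      obtain ⟨k, hk⟩ : ∃ k : ℕ, (σ ^ k) ((σ ^ l) u) = u := by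
        refine ⟨o * l - l, ?_⟩
        rw [← Equiv.Perm.mul_apply, ← pow_add]
        have : o * l - l + l = o * l := Nat.sub_add_cancel (Nat.le_mul_of_pos_left _ hopos)
        rw [this, pow_mul, pow_orderOf_eq_one, one_pow, Equiv.Perm.one_apply]
      have h2 := hpow k ((σ ^ l) u)
      rw [hk] at h2
      have h3 : ∀ x y, S x ((σ ^ l) u) ≠ 0 → R u y ≠ 0 → (B ^ (l + k)) x y ≠ 0 := by
        intro x y hx hy
        have h4 : S * (A ^ k * R) = B ^ (l + k) := by
          rw [semiconj_pow A B R hAR k, ← Matrix.mul_assoc, hSR, ← pow_add]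
        rw [← h4]
        have h5 : (A ^ k * R) ((σ ^ l) u) y ≠ 0 := by
          have := mul_entry_le (A ^ k) R ((σ ^ l) u) u y
          have h6 := Nat.mul_pos (Nat.pos_of_ne_zero h2) (Nat.pos_of_ne_zero hy)
          omega
        have := mul_entry_le S (A ^ k * R) x ((σ ^ l) u) y
        have h6 := Nat.mul_pos (Nat.pos_of_ne_zero hx) (Nat.pos_of_ne_zero h5)
        omega
      have q1 := sB.pow_le (l + k) (h3 b b' h1 hR')
      have q2 := sB.pow_le (l + k) (h3 b' b h1' hR)
      have q3 := sB.pow_le (l + k) (h3 b b h1 hR)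
      have e1 : lvlB b = lvlB b' := le_antisymm q1.1 q2.1
      rw [q1.2 e1]
      exact q3.2 rfl
    have hneβ : Nonempty β := ⟨(hex u0 rfl).choose⟩
    choose! g hg1 hg2 using hex
    have hDg : ∀ u, p u → D (g u) := fun u hu => ⟨(σ ^ l) u, (hpσk l u).2 hu, hg2 u hu⟩
    have hgu : ∀ u b, p u → D b → R u b ≠ 0 → b = g u := fun u b hu hb hR =>
      huniq u b (g u) hb (hDg u hu) hR (hg1 u hu)
    have ginj : ∀ u u', p u → p u' → g u = g u' → u = u' := by
      intro u u' hu hu' h
      have h1 := hg1 u' hu'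
      rw [← h] at h1
      have h2 : (A ^ l) u' ((σ ^ l) u) ≠ 0 := by
        rw [← hRS]; exact pow_ne_zero_of_path h1 (hg2 u hu)
      have h3 := (hpred l u' _ h2 ((hpσk l u).2 hu)).2
      exact (σ ^ l).injective h3
    have gsurj : ∀ b, D b → ∃ u, p u ∧ g u = b := by
      intro b hb
      have h1 : (B ^ l) ((τ ^ l).symm b) b ≠ 0 := by
        have := hpowB l ((τ ^ l).symm b)
        rwa [Equiv.apply_symm_apply] at this
      rw [← hSR] at h1
      obtain ⟨u, _, hu2⟩ := mul_ne_zero_entry _ _ _ _ h1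
      have hu := (hRD u b hb hu2).1
      exact ⟨u, hu, (hgu u b hu hb hu2).symm⟩
    -- predecessors of D
    have hDpred : ∀ a b, B a b ≠ 0 → D b → D a := by
      rintro a b hab ⟨c, hc, hSc⟩
      have h1 : (B * S) a c ≠ 0 := by
        have := mul_entry_le B S a b c
        have h2 := Nat.mul_pos (Nat.pos_of_ne_zero hab) (Nat.pos_of_ne_zero hSc)
        omega
      rw [← hSA] at h1
      obtain ⟨u, hu1, hu2⟩ := mul_ne_zero_entry _ _ _ _ h1
      exact ⟨u, (hpred1 u c hu2 hc).1, hu1⟩
    have hDτ : ∀ b, D (τ b) ↔ D b := by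
      have h1 : ∀ b, D (τ b) → D b := fun b hb => hDpred b (τ b) (hpB b) hb
      intro b
      refine ⟨h1 b, fun hb => ?_⟩
      have h2 : ∀ (k : ℕ) b, D ((τ ^ k) b) → D b := by
        intro k
        induction k with
        | zero => intro b hb; simpa using hb
        | succ k ihk =>
          intro b hb
          rw [pow_succ', Equiv.Perm.mul_apply] at hb
          exact ihk b (h1 _ hb)
      refine h2 (orderOf τ - 1) (τ b) ?_
      have h3 : (τ ^ (orderOf τ - 1)) (τ b) = b := by
        rw [← Equiv.Perm.mul_apply, ← pow_succ, Nat.sub_add_cancel (orderOf_pos τ),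
          pow_orderOf_eq_one, Equiv.Perm.one_apply]
      rw [h3]; exact hb
    have hnDτ : ∀ b, ¬ D (τ b) ↔ ¬ D b := fun b => not_congr (hDτ b)
    have hnpσ : ∀ b, ¬ p (σ b) ↔ ¬ p b := fun b => not_congr (hpσ b)
    -- the equivalences
    set e : α ≃ {u // p u} ⊕ {u // ¬ p u} := (Equiv.sumCompl p).symm with he
    have hfb : Function.Bijective (Sum.elim (fun u : {u // p u} => g u.1)
        (fun b : {b // ¬ D b} => b.1)) := by
      constructor
      · rintro (u | b) (u' | b') h
        · simp only [Sum.elim_inl] at h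
          rw [Subtype.ext (ginj _ _ u.2 u'.2 h)]
        · simp only [Sum.elim_inl, Sum.elim_inr] at h
          exact absurd (hDg _ u.2) (by rw [h]; exact b'.2)
        · simp only [Sum.elim_inl, Sum.elim_inr] at h
          exact absurd (hDg _ u'.2) (by rw [← h]; exact b.2)
        · simp only [Sum.elim_inr] at h
          rw [Subtype.ext h]
      · intro b
        by_cases hb : D b
        · obtain ⟨u, hu, hub⟩ := gsurj b hb
          exact ⟨Sum.inl ⟨u, hu⟩, hub⟩
        · exact ⟨Sum.inr ⟨b, hb⟩, rfl⟩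
    set f' : {u // p u} ⊕ {b // ¬ D b} ≃ β := Equiv.ofBijective _ hfb with hf'
    have hf1 : ∀ u, f' (Sum.inl u) = g u.1 := fun u => rfl
    have hf2 : ∀ b, f' (Sum.inr b) = b.1 := fun b => rfl
    have he1 : ∀ u, e.symm (Sum.inl u) = u.1 := fun u => rfl
    have he2 : ∀ u, e.symm (Sum.inr u) = u.1 := fun u => rfl
    set σ' := σ.subtypePerm hpσ with hσ'
    set σ1 := Equiv.Perm.subtypePerm (p := fun x => ¬ p x) σ hnpσ with hσ1
    set τ1 := Equiv.Perm.subtypePerm (p := fun x => ¬ D x) τ hnDτ with hτ1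
    have hσ'v : ∀ u, (σ' u).1 = σ u.1 := fun u => rfl
    have hσ1v : ∀ u, (σ1 u).1 = σ u.1 := fun u => rfl
    have hτ1v : ∀ u, (τ1 u).1 = τ u.1 := fun u => rfl
    set n : {u // p u} → ℕ := fun u => A u.1 (σ u.1) with hn
    set m : Matrix {u // p u} {u // ¬ p u} ℕ := fun u v => A u.1 v.1 with hm
    set A1 : Matrix {u // ¬ p u} {u // ¬ p u} ℕ := fun u v => A u.1 v.1 with hA1
    set m' : Matrix {u // p u} {b // ¬ D b} ℕ := fun u v => B (g u.1) v.1 with hm'
    set B1 : Matrix {b // ¬ D b} {b // ¬ D b} ℕ := fun u v => B u.1 v.1 with hB1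
    set r : {u // p u} → ℕ := fun u => R u.1 (g u.1) with hr
    set r12 : Matrix {u // p u} {b // ¬ D b} ℕ := fun u v => R u.1 v.1 with hr12
    set R2 : Matrix {u // ¬ p u} {b // ¬ D b} ℕ := fun u v => R u.1 v.1 with hR2
    set s0 : {u // p u} → ℕ := fun u => S (g u.1) ((σ ^ l) u.1) with hs0
    set s12 : Matrix {u // p u} {u // ¬ p u} ℕ := fun u v => S (g u.1) v.1 with hs12
    set S2 : Matrix {b // ¬ D b} {u // ¬ p u} ℕ := fun u v => S u.1 v.1 with hS2
    -- block forms
    have bA : A.submatrix e.symm e.symm = fromBlocks (Th σ' n) m 0 A1 := by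
      ext i j
      rcases i with i | i <;> rcases j with j | j
      · simp only [Matrix.submatrix_apply, he1, Matrix.fromBlocks_apply₁₁, Th_apply]
        by_cases h : j = σ' i
        · rw [if_pos h, h]; rfl
        · rw [if_neg h]
          by_contra hne
          exact h (Subtype.ext (hpred1 i.1 j.1 hne j.2).2)
      · rfl
      · simp only [Matrix.submatrix_apply, he1, he2, Matrix.fromBlocks_apply₂₁, Matrix.zero_apply]
        by_contra hne
        exact i.2 (hpred1 i.1 j.1 hne j.2).1
      · rfl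
    have bR : R.submatrix e.symm f' = fromBlocks (diagonal r) r12 0 R2 := by
      ext i j
      rcases i with i | i <;> rcases j with j | j
      · simp only [Matrix.submatrix_apply, he1, hf1, Matrix.fromBlocks_apply₁₁, Matrix.diagonal_apply]
        by_cases h : i = j
        · rw [if_pos h, h]
        · rw [if_neg h]
          by_contra hne
          have h1 := hgu i.1 (g j.1) i.2 (hDg _ j.2) hne
          exact h (Subtype.ext (ginj _ _ i.2 j.2 h1.symm))
      · rfl
      · simp only [Matrix.submatrix_apply, he2, hf1, Matrix.fromBlocks_apply₂₁, Matrix.zero_apply]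
        by_contra hne
        exact i.2 (hRD i.1 _ (hDg _ j.2) hne).1
      · rfl
    have bS : S.submatrix f' e.symm = fromBlocks (Th (σ' ^ l) s0) s12 0 S2 := by
      ext i j
      rcases i with i | i <;> rcases j with j | j
      · simp only [Matrix.submatrix_apply, he1, hf1, Matrix.fromBlocks_apply₁₁, Th_apply]
        have hpv : ((σ' ^ l) i).1 = (σ ^ l) i.1 := subtypePerm_pow_val σ p hpσ l i
        by_cases h : j = (σ' ^ l) i
        · rw [if_pos h, h, hs0]; simp only [hpv]
        · rw [if_neg h]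
          by_contra hne
          have h1 : (A ^ l) i.1 j.1 ≠ 0 := by
            rw [← hRS]; exact pow_ne_zero_of_path (hg1 _ i.2) hne
          have h2 := (hpred l i.1 j.1 h1 j.2).2
          exact h (Subtype.ext (by rw [hpv]; exact h2))
      · rfl
      · simp only [Matrix.submatrix_apply, he1, hf2, Matrix.fromBlocks_apply₂₁, Matrix.zero_apply]
        by_contra hne
        exact i.2 ⟨j.1, j.2, hne⟩
      · rfl
    have hrpos : ∀ u, 0 < r u := fun u => Nat.pos_of_ne_zero (hg1 u.1 u.2)
    have hs0pos : ∀ u, 0 < s0 u := fun u => Nat.pos_of_ne_zero (hg2 u.1 u.2)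
    have hσn : ∀ u, n (σ' u) = n u := fun u => sA.wt u.1
    have hrs0 : ∀ u, r u * s0 u = n u ^ l := by
      intro u
      have h1 := sA.pow_diag l u.1
      rw [← hRS, Matrix.mul_apply, Finset.sum_eq_single (g u.1)] at h1
      · exact h1
      · intro b _ hb
        by_contra hne
        have h2 : R u.1 b ≠ 0 := fun h => hne (by rw [h, zero_mul])
        have h3 : S b ((σ ^ l) u.1) ≠ 0 := fun h => hne (by rw [h, mul_zero])
        exact hb (hgu u.1 b u.2 ⟨_, (hpσk l _).2 u.2, h3⟩ h2)
      · intro h; exact absurd (Finset.mem_univ _) h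
    have hn1r : ∀ u, n u = 1 → r u = 1 := by
      intro u hu
      have := hrs0 u
      rw [hu, one_pow] at this
      exact Nat.eq_one_of_mul_eq_one_right this
    have hσr : ∀ u, r (σ' u) = r u := by
      intro u
      rcases sA.h1 u.1 with h | h
      · have : σ' u = u := Subtype.ext h
        rw [this]
      · have h1 : n u = 1 := h
        rw [hn1r u h1, hn1r (σ' u) (by rw [hσn, h1])]
    have bB : B.submatrix f' f' = fromBlocks (Th σ' n) m' 0 B1 := by
      ext i j
      rcases i with i | i <;> rcases j with j | j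
      · simp only [Matrix.submatrix_apply, hf1, Matrix.fromBlocks_apply₁₁]
        have h1 := congrFun (congrFun hAR i.1) (g j.1)
        rw [Matrix.mul_apply, Matrix.mul_apply, Finset.sum_eq_single j.1,
          Finset.sum_eq_single (g i.1)] at h1
        · have h2 : A i.1 j.1 = Th σ' n i j := by
            have := congrFun (congrFun bA (Sum.inl i)) (Sum.inl j)
            rw [Matrix.submatrix_apply, Matrix.fromBlocks_apply₁₁] at this
            exact this
          rw [h2] at h1
          have h3 : r i * B (g i.1) (g j.1) = Th σ' n i j * r j := h1.symm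
          rw [Th_apply] at h3 ⊢
          split_ifs at h3 ⊢ with h
          · rw [h, hσr, mul_comm (n i)] at h3
            rw [h]
            exact Nat.eq_of_mul_eq_mul_left (hrpos i) h3
          · rw [zero_mul] at h3
            rcases Nat.mul_eq_zero.1 h3 with h4 | h4
            · exact absurd h4 (hrpos i).ne'
            · exact h4
        · intro b _ hb
          by_contra hne
          have h2 : R i.1 b ≠ 0 := fun h => hne (by rw [h, zero_mul])
          have h3 : B b (g j.1) ≠ 0 := fun h => hne (by rw [h, mul_zero])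
          exact hb (hgu i.1 b i.2 (hDpred _ _ h3 (hDg _ j.2)) h2)
        · intro h; exact absurd (Finset.mem_univ _) h
        · intro x _ hx
          by_contra hne
          have h3 : R x (g j.1) ≠ 0 := fun h => hne (by rw [h, mul_zero])
          have hpx := (hRD x _ (hDg _ j.2) h3).1
          have h4 := hgu x (g j.1) hpx (hDg _ j.2) h3
          exact hx (ginj _ _ hpx j.2 h4.symm)
        · intro h; exact absurd (Finset.mem_univ _) h
      · rfl
      · simp only [Matrix.submatrix_apply, hf1, hf2, Matrix.fromBlocks_apply₂₁, Matrix.zero_apply]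
        by_contra hne
        exact i.2 (hDpred _ _ hne (hDg _ j.2))
      · rfl
    -- block relations
    have kAR : fromBlocks (Th σ' n) m 0 A1 * fromBlocks (diagonal r) r12 0 R2 =
        fromBlocks (diagonal r) r12 0 R2 * fromBlocks (Th σ' n) m' 0 B1 := by
      rw [← bA, ← bR, ← bB, Matrix.submatrix_mul_equiv, Matrix.submatrix_mul_equiv, hAR]
    have kSA : fromBlocks (Th (σ' ^ l) s0) s12 0 S2 * fromBlocks (Th σ' n) m 0 A1 =
        fromBlocks (Th σ' n) m' 0 B1 * fromBlocks (Th (σ' ^ l) s0) s12 0 S2 := by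
      rw [← bA, ← bS, ← bB, Matrix.submatrix_mul_equiv, Matrix.submatrix_mul_equiv, hSA]
    have kRS : fromBlocks (diagonal r) r12 0 R2 * fromBlocks (Th (σ' ^ l) s0) s12 0 S2 =
        (fromBlocks (Th σ' n) m 0 A1) ^ l := by
      rw [← bA, ← bR, ← bS, Matrix.submatrix_mul_equiv, hRS, submatrix_pow]
    have kSR : fromBlocks (Th (σ' ^ l) s0) s12 0 S2 * fromBlocks (diagonal r) r12 0 R2 =
        (fromBlocks (Th σ' n) m' 0 B1) ^ l := by
      rw [← bB, ← bR, ← bS, Matrix.submatrix_mul_equiv, hSR, submatrix_pow]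
    -- the structure of B1
    set w : {b // ¬ D b} → ℕ := fun b => B b.1 (τ b.1) with hw
    set Bl : Matrix {b // ¬ D b} {b // ¬ D b} ℕ := fun a b => if b = τ1 a then 0 else B1 a b with hBl
    have dat : Dat σ' n m A1 m' B1 τ1 w (fun b => lvlB b.1) Bl r r12 R2 s0 s12 S2 l := by
      refine ⟨hσn, fun u => Nat.pos_of_ne_zero (hpA u.1), fun b => sB.wt b.1,
        fun b => Nat.pos_of_ne_zero (hpB b.1), fun b => sB.hl b.1, ?_, ?_, hrpos, hσr, ?_, hs0pos,
        kAR, kRS, kSR⟩
      · ext a b
        rw [Matrix.add_apply, Th_apply, hBl]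
        simp only
        split_ifs with h
        · rw [h, add_zero]; rfl
        · rw [zero_add]
      · intro a b hab
        rw [hBl] at hab
        simp only at hab
        split_ifs at hab with h
        · exact absurd rfl hab
        · rcases sB.he a.1 b.1 hab with h' | h'
          · exact absurd (Subtype.ext h') h
          · exact h'
      · intro u
        exact ⟨s0 u, (hrs0 u).symm⟩
    -- induction hypothesis
    have strA1 : Str A1 σ1 (fun u => lvlA u.1) := by
      refine ⟨fun a => sA.hl a.1, ?_, ?_⟩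
      · intro a b hab
        rcases sA.he a.1 b.1 hab with h | h
        · exact Or.inl (Subtype.ext h)
        · exact Or.inr h
      · intro a
        rcases sA.h1 a.1 with h | h
        · exact Or.inl (Subtype.ext h)
        · exact Or.inr h
    have strB1 : Str B1 τ1 (fun u => lvlB u.1) := by
      refine ⟨fun a => sB.hl a.1, ?_, ?_⟩
      · intro a b hab
        rcases sB.he a.1 b.1 hab with h | h
        · exact Or.inl (Subtype.ext h)
        · exact Or.inr h
      · intro a
        rcases sB.h1 a.1 with h | h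
        · exact Or.inl (Subtype.ext h)
        · exact Or.inr h
    have hcard : Fintype.card {u // ¬ p u} < N := by
      rw [← hN]
      exact Fintype.card_subtype_lt (x := u0) (by simp [hp])
    have jAR : A1 * R2 = R2 * B1 := by
      have h := kAR
      rw [Matrix.fromBlocks_multiply, Matrix.fromBlocks_multiply, Matrix.fromBlocks_inj] at h
      simpa using h.2.2.2
    have jSA : S2 * A1 = B1 * S2 := by
      have h := kSA
      rw [Matrix.fromBlocks_multiply, Matrix.fromBlocks_multiply, Matrix.fromBlocks_inj] at h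
      simpa using h.2.2.2
    have jRS : R2 * S2 = A1 ^ l := by
      have h := kRS
      rw [block_pow, Matrix.fromBlocks_multiply, Matrix.fromBlocks_inj] at h
      simpa using h.2.2.2
    have jSR : S2 * R2 = B1 ^ l := dat.S2R2
    have hIH := ih _ hcard {u // ¬ p u} {b // ¬ D b} A1 B1 σ1 (fun u => lvlA u.1) τ1
      (fun u => lvlB u.1) strA1 strB1 (fun a => hpA a.1) (fun b => hpB b.1) R2 S2 l hl
      jAR jSA jRS jSR rfl
    obtain ⟨L, hL, hCH⟩ := dat.block_step hIH
    refine ⟨L, hL, fun f hf => ?_⟩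
    refine CH.reindex e f'.symm A B _ ?_
    change CH ⟨_, A.submatrix e.symm e.symm⟩ ⟨_, B.submatrix f' f'⟩
      ((A ^ (L * f) * R).submatrix e.symm f')
    have key : (A ^ (L * f) * R).submatrix e.symm f' =
        (A.submatrix e.symm e.symm) ^ (L * f) * R.submatrix e.symm f' := by
      rw [← submatrix_pow, Matrix.submatrix_mul_equiv]
    rw [key, bA, bR, bB]
    exact hCH f hf

end Pool.Agent.H812R2.SSE
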