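import Pool.Agent.H812R2.SSE.Chain

/-!
# The firing lemma

A chip firing game on `γ × β` gives a chain of elementary strong shift equivalences from
`[Θ s'; 0 B]` to `[Θ q; 0 B]` with total product `[1 X; 0 1]`, as soon as `q + X B = s' + Θ X` and two
positivity conditions hold.
-/

set_option autoImplicit false
set_option linter.unusedSectionVars false

namespace Pool.Agent.H812R2.SSE

open Matrix

/-- weighted permutation matrix -/
def Th {γ : Type} [DecidableEq γ] (σ : Equiv.Perm γ) (n : γ → ℕ) : Matrix γ γ ℕ :=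
  Matrix.of fun i j => if j = σ i then n i else 0

section basic

variable {γ β : Type} [Fintype γ] [DecidableEq γ] [Fintype β] [DecidableEq β]

theorem Th_apply (σ : Equiv.Perm γ) (n : γ → ℕ) (i j : γ) :
    Th σ n i j = if j = σ i then n i else 0 := rfl

theorem Th_mul (σ : Equiv.Perm γ) (n : γ → ℕ) (X : Matrix γ β ℕ) (i : γ) (a : β) :
    (Th σ n * X) i a = n i * X (σ i) a := by
  rw [Matrix.mul_apply, Finset.sum_eq_single (σ i)]
  · simp [Th_apply]
  · intro b _ hb; simp [Th_apply, hb]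
  · intro h; exact absurd (Finset.mem_univ _) h

theorem mul_Th (X : Matrix γ β ℕ) (τ : Equiv.Perm β) (w : β → ℕ) (i : γ) (a : β) :
    (X * Th τ w) i a = X i (τ.symm a) * w (τ.symm a) := by
  rw [Matrix.mul_apply, Finset.sum_eq_single (τ.symm a)]
  · simp [Th_apply]
  · intro b _ hb
    rw [Th_apply, if_neg, Nat.mul_zero]
    intro h; exact hb (by rw [h]; simp)
  · intro h; exact absurd (Finset.mem_univ _) h

/-- the product permutation -/
def om (σ : Equiv.Perm γ) (τ : Equiv.Perm β) : Equiv.Perm (γ × β) := Equiv.prodCongr σ τ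

theorem om_apply (σ : Equiv.Perm γ) (τ : Equiv.Perm β) (v : γ × β) :
    om σ τ v = (σ v.1, τ v.2) := rfl

theorem om_symm_apply (σ : Equiv.Perm γ) (τ : Equiv.Perm β) (v : γ × β) :
    (om σ τ).symm v = (σ.symm v.1, τ.symm v.2) := rfl

open Classical in
/-- the orbit of `u` -/
noncomputable def orb (σ : Equiv.Perm γ) (τ : Equiv.Perm β) (u : γ × β) : Finset (γ × β) :=
  Finset.univ.filter (fun v => (om σ τ).SameCycle u v)

theorem mem_orb {σ : Equiv.Perm γ} {τ : Equiv.Perm β} {u v : γ × β} :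
    v ∈ orb σ τ u ↔ (om σ τ).SameCycle u v := by
  simp [orb]

theorem inv_sameCycle {P T : Type} [Finite P] {f : Equiv.Perm P} {g : P → T} (hg : ∀ v, g (f v) = g v)
    {u v : P} (h : f.SameCycle u v) : g v = g u := by
  obtain ⟨k, hk⟩ := h.exists_nat_pow_eq
  rw [← hk]
  clear hk h
  induction k with
  | zero => simp
  | succ k ih => rw [pow_succ', Equiv.Perm.mul_apply, hg, ih]

theorem sum_orb_symm (σ : Equiv.Perm γ) (τ : Equiv.Perm β) (u : γ × β) (f : γ × β → ℕ) :
    ∑ v ∈ orb σ τ u, f ((om σ τ).symm v) = ∑ v ∈ orb σ τ u, f v := by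
  refine Finset.sum_equiv (om σ τ).symm ?_ (fun _ _ => rfl)
  intro v
  rw [mem_orb, mem_orb]
  constructor
  · intro h
    have h2 : (om σ τ).SameCycle u ((om σ τ) ((om σ τ).symm v)) := by
      rw [Equiv.apply_symm_apply]; exact h
    exact Equiv.Perm.sameCycle_apply_right.1 h2
  · intro h
    have h2 := Equiv.Perm.sameCycle_apply_right.2 h
    rwa [Equiv.apply_symm_apply] at h2

theorem sum_orb_Th (σ : Equiv.Perm γ) (τ : Equiv.Perm β) (n : γ → ℕ) (hn : ∀ i, n (σ i) = n i)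
    (u : γ × β) (X : Matrix γ β ℕ) :
    ∑ v ∈ orb σ τ u, (Th σ n * X) (σ.symm v.1) v.2 = n u.1 * ∑ v ∈ orb σ τ u, X v.1 v.2 := by
  rw [Finset.mul_sum]
  refine Finset.sum_congr rfl fun v hv => ?_
  rw [Th_mul]
  have h1 : n (σ.symm v.1) = n v.1 := by
    have := hn (σ.symm v.1); rw [Equiv.apply_symm_apply] at this; exact this.symm
  have h2 : n v.1 = n u.1 :=
    inv_sameCycle (f := om σ τ) (g := fun v : γ × β => n v.1) (fun v => hn v.1) (mem_orb.1 hv)
  rw [h1, h2, Equiv.apply_symm_apply]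

theorem sum_orb_mulTh (σ : Equiv.Perm γ) (τ : Equiv.Perm β) (w : β → ℕ) (hw : ∀ i, w (τ i) = w i)
    (u : γ × β) (X : Matrix γ β ℕ) :
    ∑ v ∈ orb σ τ u, (X * Th τ w) (σ.symm v.1) v.2 = w u.2 * ∑ v ∈ orb σ τ u, X v.1 v.2 := by
  rw [← sum_orb_symm σ τ u (fun v => X v.1 v.2), Finset.mul_sum]
  refine Finset.sum_congr rfl fun v hv => ?_
  rw [mul_Th]
  have h1 : w (τ.symm v.2) = w v.2 := by
    have := hw (τ.symm v.2); rw [Equiv.apply_symm_apply] at this; exact this.symm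
  have h2 : w v.2 = w u.2 :=
    inv_sameCycle (f := om σ τ) (g := fun v : γ × β => w v.2) (fun v => hw v.2) (mem_orb.1 hv)
  rw [h1, h2, mul_comm]; rfl

end basic

section fire

variable {γ β : Type} [Fintype γ] [DecidableEq γ] [Fintype β] [DecidableEq β]

theorem not_stuck (σ : Equiv.Perm γ) (n : γ → ℕ) (hn : ∀ i, n (σ i) = n i)
    (τ : Equiv.Perm β) (w : β → ℕ) (hw : ∀ a, w (τ a) = w a)
    (lvl : β → ℕ) (hl : ∀ a, lvl (τ a) = lvl a)
    (B Bl : Matrix β β ℕ) (hB : B = Th τ w + Bl) (hBl : ∀ a b, Bl a b ≠ 0 → lvl a < lvl b)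
    (s' X q : Matrix γ β ℕ) (hX : ∃ u : γ × β, X u.1 u.2 ≠ 0)
    (heq : q + X * B = s' + Th σ n * X)
    (cA : ∀ u : γ × β, X u.1 u.2 ≠ 0 → w u.2 ≤ n u.1 →
        ∃ v, (om σ τ).SameCycle u v ∧ (w u.2 - 1) * Fintype.card (γ × β) < s' (σ.symm v.1) v.2)
    (cB : ∀ u : γ × β, X u.1 u.2 ≠ 0 → n u.1 ≤ w u.2 →
        (n u.1 - 1) * Fintype.card (γ × β) < ∑ v ∈ orb σ τ u, (q + X * Bl) (σ.symm v.1) v.2) :
    ∃ u : γ × β, X u.1 u.2 ≠ 0 ∧ n u.1 ≤ q (σ.symm u.1) u.2 := by
  classical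
  by_contra hcon
  push Not at hcon
  obtain ⟨u0, hu0, hmin⟩ := Finset.exists_min_image
    (Finset.univ.filter (fun u : γ × β => X u.1 u.2 ≠ 0)) (fun u => lvl u.2)
    (by obtain ⟨u, hu⟩ := hX; exact ⟨u, by simp [hu]⟩)
  simp only [Finset.mem_filter, Finset.mem_univ, true_and] at hu0 hmin
  have hnO : ∀ v ∈ orb σ τ u0, n v.1 = n u0.1 := fun v hv =>
    inv_sameCycle (f := om σ τ) (g := fun v : γ × β => n v.1) (fun v => hn v.1) (mem_orb.1 hv)
  have hwO : ∀ v ∈ orb σ τ u0, w v.2 = w u0.2 := fun v hv =>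
    inv_sameCycle (f := om σ τ) (g := fun v : γ × β => w v.2) (fun v => hw v.2) (mem_orb.1 hv)
  have hlO : ∀ v ∈ orb σ τ u0, lvl v.2 = lvl u0.2 := fun v hv =>
    inv_sameCycle (f := om σ τ) (g := fun v : γ × β => lvl v.2) (fun v => hl v.2) (mem_orb.1 hv)
  have hz : ∀ v ∈ orb σ τ u0, (X * Bl) (σ.symm v.1) v.2 = 0 := by
    intro v hv
    rw [Matrix.mul_apply]
    refine Finset.sum_eq_zero fun b _ => ?_
    by_contra hne
    have h1 : X (σ.symm v.1) b ≠ 0 := fun h => hne (by rw [h, zero_mul])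
    have h2 : Bl b v.2 ≠ 0 := fun h => hne (by rw [h, mul_zero])
    have h3 := hBl _ _ h2
    have h4 := hmin (σ.symm v.1, b) h1
    rw [hlO v hv] at h3
    exact absurd h3 (not_lt.2 h4)
  have hE : ∀ v ∈ orb σ τ u0, q (σ.symm v.1) v.2 + (X * Th τ w) (σ.symm v.1) v.2 =
      s' (σ.symm v.1) v.2 + (Th σ n * X) (σ.symm v.1) v.2 := by
    intro v hv
    have h := congrFun (congrFun heq (σ.symm v.1)) v.2
    rw [hB, Matrix.mul_add] at h
    simp only [Matrix.add_apply] at h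
    rw [hz v hv] at h
    simpa using h
  -- the support contains the whole orbit
  have hstep : ∀ v ∈ orb σ τ u0, X v.1 v.2 ≠ 0 →
      X ((om σ τ)⁻¹ v).1 ((om σ τ)⁻¹ v).2 ≠ 0 := by
    intro v hv hXv h0
    have h := hE v hv
    rw [mul_Th, Th_mul, Equiv.apply_symm_apply] at h
    have h0' : X (σ.symm v.1) (τ.symm v.2) = 0 := h0
    rw [h0', zero_mul, add_zero] at h
    have h1 : n (σ.symm v.1) = n v.1 := by
      have := hn (σ.symm v.1); rw [Equiv.apply_symm_apply] at this; exact this.symm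
    rw [h1] at h
    have h2 := hcon v hXv
    rw [h] at h2
    have h3 : 1 ≤ X v.1 v.2 := Nat.one_le_iff_ne_zero.2 hXv
    nlinarith
  have hsupp : ∀ v ∈ orb σ τ u0, X v.1 v.2 ≠ 0 := by
    have key : ∀ k : ℕ, X (((om σ τ)⁻¹ ^ k) u0).1 (((om σ τ)⁻¹ ^ k) u0).2 ≠ 0 := by
      intro k
      induction k with
      | zero => simpa using hu0
      | succ k ih =>
        rw [pow_succ', Equiv.Perm.mul_apply]
        refine hstep _ ?_ ih
        rw [mem_orb]
        have : (om σ τ)⁻¹.SameCycle u0 (((om σ τ)⁻¹ ^ k) u0) := by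
          rw [Equiv.Perm.sameCycle_pow_right]
        exact Equiv.Perm.sameCycle_inv.1 this
    intro v hv
    have h := Equiv.Perm.sameCycle_inv.2 (mem_orb.1 hv)
    obtain ⟨k, hk⟩ := h.exists_nat_pow_eq
    rw [← hk]; exact key k
  have hself : u0 ∈ orb σ τ u0 := mem_orb.2 (Equiv.Perm.SameCycle.refl _ _)
  have hsum : ∑ v ∈ orb σ τ u0, q (σ.symm v.1) v.2 + w u0.2 * ∑ v ∈ orb σ τ u0, X v.1 v.2 =
      ∑ v ∈ orb σ τ u0, s' (σ.symm v.1) v.2 + n u0.1 * ∑ v ∈ orb σ τ u0, X v.1 v.2 := by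
    rw [← sum_orb_Th σ τ n hn, ← sum_orb_mulTh σ τ w hw, ← Finset.sum_add_distrib,
      ← Finset.sum_add_distrib]
    exact Finset.sum_congr rfl hE
  have hcard : (orb σ τ u0).card ≤ Fintype.card (γ × β) := Finset.card_le_univ _
  have hXc : (orb σ τ u0).card ≤ ∑ v ∈ orb σ τ u0, X v.1 v.2 := by
    rw [Finset.card_eq_sum_ones]
    exact Finset.sum_le_sum fun v hv => Nat.one_le_iff_ne_zero.2 (hsupp v hv)
  have hq1 : ∀ v ∈ orb σ τ u0, q (σ.symm v.1) v.2 ≤ n u0.1 - 1 := by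
    intro v hv
    have := hcon v (hsupp v hv)
    rw [hnO v hv] at this
    omega
  have hqs : ∑ v ∈ orb σ τ u0, q (σ.symm v.1) v.2 ≤ (orb σ τ u0).card * (n u0.1 - 1) := by
    have := Finset.sum_le_card_nsmul (orb σ τ u0) (fun v => q (σ.symm v.1) v.2) _ hq1
    simpa using this
  have hn1 : 1 ≤ n u0.1 := by
    have := hcon u0 hu0; omega
  rcases le_total (w u0.2) (n u0.1) with hle | hle
  · obtain ⟨v1, hv1, hv1'⟩ := cA u0 hu0 hle
    have h1 : s' (σ.symm v1.1) v1.2 ≤ ∑ v ∈ orb σ τ u0, s' (σ.symm v.1) v.2 :=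
      Finset.single_le_sum (f := fun v : γ × β => s' (σ.symm v.1) v.2) (fun _ _ => Nat.zero_le _)
        (mem_orb.2 hv1)
    have h2 : (w u0.2 - 1) * (orb σ τ u0).card ≤ (w u0.2 - 1) * Fintype.card (γ × β) :=
      Nat.mul_le_mul_left _ hcard
    set Q := ∑ v ∈ orb σ τ u0, q (σ.symm v.1) v.2
    set SX := ∑ v ∈ orb σ τ u0, X v.1 v.2
    set SS := ∑ v ∈ orb σ τ u0, s' (σ.symm v.1) v.2
    set c := (orb σ τ u0).card
    have h3 : (w u0.2 - 1) * c < SS := lt_of_le_of_lt h2 (lt_of_lt_of_le hv1' h1)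
    obtain ⟨d, hd⟩ := Nat.exists_eq_add_of_le hle
    rw [hd] at hsum hqs
    have h4 : Q = SS + d * SX := by nlinarith
    have h5 : d * c ≤ d * SX := Nat.mul_le_mul_left _ hXc
    have h6 : c * (w u0.2 + d - 1) ≤ (w u0.2 - 1) * c + d * c := by
      have : w u0.2 + d - 1 ≤ (w u0.2 - 1) + d := by omega
      calc c * (w u0.2 + d - 1) ≤ c * ((w u0.2 - 1) + d) := Nat.mul_le_mul_left _ this
        _ = (w u0.2 - 1) * c + d * c := by ring
    omega
  · have h1 := cB u0 hu0 hle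
    have h2 : ∑ v ∈ orb σ τ u0, (q + X * Bl) (σ.symm v.1) v.2 =
        ∑ v ∈ orb σ τ u0, q (σ.symm v.1) v.2 := by
      refine Finset.sum_congr rfl fun v hv => ?_
      rw [Matrix.add_apply, hz v hv, add_zero]
    rw [h2] at h1
    have h3 : (orb σ τ u0).card * (n u0.1 - 1) ≤ (n u0.1 - 1) * Fintype.card (γ × β) := by
      rw [mul_comm]; exact Nat.mul_le_mul_left _ hcard
    omega

theorem exec (σ : Equiv.Perm γ) (n : γ → ℕ) (hn : ∀ i, n (σ i) = n i)
    (τ : Equiv.Perm β) (w : β → ℕ) (hw : ∀ a, w (τ a) = w a)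
    (lvl : β → ℕ) (hl : ∀ a, lvl (τ a) = lvl a)
    (B Bl : Matrix β β ℕ) (hB : B = Th τ w + Bl) (hBl : ∀ a b, Bl a b ≠ 0 → lvl a < lvl b)
    (s' : Matrix γ β ℕ) : ∀ (N : ℕ) (X q : Matrix γ β ℕ), ∑ i, ∑ a, X i a = N →
      q + X * B = s' + Th σ n * X →
      (∀ u : γ × β, X u.1 u.2 ≠ 0 → w u.2 ≤ n u.1 →
        ∃ v, (om σ τ).SameCycle u v ∧ (w u.2 - 1) * Fintype.card (γ × β) < s' (σ.symm v.1) v.2) →
      (∀ u : γ × β, X u.1 u.2 ≠ 0 → n u.1 ≤ w u.2 →
        (n u.1 - 1) * Fintype.card (γ × β) < ∑ v ∈ orb σ τ u, (q + X * Bl) (σ.symm v.1) v.2) →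
      CH ⟨γ ⊕ β, fromBlocks (Th σ n) s' 0 B⟩ ⟨γ ⊕ β, fromBlocks (Th σ n) q 0 B⟩
        (fromBlocks 1 X 0 1) := by
  intro N
  induction N with
  | zero =>
    intro X q hsum heq _ _
    have hX : X = 0 := by
      ext i a
      have h1 : ∑ i, ∑ a, X i a = 0 := hsum
      rw [Finset.sum_eq_zero_iff] at h1
      have h2 := h1 i (Finset.mem_univ _)
      rw [Finset.sum_eq_zero_iff] at h2
      exact h2 a (Finset.mem_univ _)
    subst hX
    simp only [Matrix.zero_mul, Matrix.mul_zero, add_zero] at heq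
    subst heq
    rw [Matrix.fromBlocks_one]
    exact CH.refl _
  | succ N ih =>
    intro X q hsum heq cA cB
    have hX : ∃ u : γ × β, X u.1 u.2 ≠ 0 := by
      by_contra hcon
      push Not at hcon
      have : ∑ i, ∑ a, X i a = 0 :=
        Finset.sum_eq_zero fun i _ => Finset.sum_eq_zero fun a _ => hcon (i, a)
      omega
    obtain ⟨u, hu, hqu⟩ := not_stuck σ n hn τ w hw lvl hl B Bl hB hBl s' X q hX heq cA cB
    set x : Matrix γ β ℕ := Matrix.single u.1 u.2 1 with hx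
    have hx_apply : ∀ i a, x i a = if u.1 = i ∧ u.2 = a then 1 else 0 := by
      intro i a; rw [hx, Matrix.single_apply]
    -- X = X' + x
    set X' : Matrix γ β ℕ := X - x with hX'
    have hXX : X = X' + x := by
      ext i a
      rw [hX', Matrix.add_apply, Matrix.sub_apply, hx_apply]
      split_ifs with h
      · rw [← h.1, ← h.2]; have := Nat.one_le_iff_ne_zero.2 hu; omega
      · simp
    set z : Matrix γ β ℕ := q - Th σ n * x with hz
    have hThx : ∀ i a, (Th σ n * x) i a = if u = (σ i, a) then n i else 0 := by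
      intro i a
      rw [Th_mul, hx_apply]
      by_cases h : u = (σ i, a)
      · rw [if_pos h, if_pos (by rw [h]; exact ⟨rfl, rfl⟩), mul_one]
      · rw [if_neg h, if_neg, mul_zero]
        intro h'; exact h (Prod.ext h'.1 h'.2)
    have hqz : q = z + Th σ n * x := by
      ext i a
      rw [hz, Matrix.add_apply, Matrix.sub_apply, hThx]
      split_ifs with h
      · have h1 : n u.1 ≤ q (σ.symm u.1) u.2 := hqu
        rw [h] at h1
        simp only [Equiv.symm_apply_apply] at h1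
        rw [hn] at h1
        omega
      · simp
    set q' : Matrix γ β ℕ := z + x * B with hq'
    have heq' : q' + X' * B = s' + Th σ n * X' := by
      have h1 : z + Th σ n * x + (X' + x) * B = s' + Th σ n * (X' + x) := by
        rw [← hqz, ← hXX]; exact heq
      rw [Matrix.add_mul, Matrix.mul_add] at h1
      ext i a
      have h2 := congrFun (congrFun h1 i) a
      rw [hq']
      simp only [Matrix.add_apply] at h2 ⊢
      omega
    have hsum' : ∑ i, ∑ a, X' i a = N := by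
      have h1 : ∑ i, ∑ a, X i a = ∑ i, ∑ a, X' i a + ∑ i, ∑ a, x i a := by
        rw [hXX]
        simp only [Matrix.add_apply, Finset.sum_add_distrib]
      have h2 : ∑ i, ∑ a, x i a = 1 := by
        rw [Finset.sum_eq_single u.1, Finset.sum_eq_single u.2]
        · rw [hx_apply]; simp
        · intro b _ hb; rw [hx_apply, if_neg]; rintro ⟨_, h⟩; exact hb h.symm
        · intro h; exact absurd (Finset.mem_univ _) h
        · intro b _ hb
          refine Finset.sum_eq_zero fun a _ => ?_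
          rw [hx_apply, if_neg]; rintro ⟨h, _⟩; exact hb h.symm
        · intro h; exact absurd (Finset.mem_univ _) h
      omega
    have hle : ∀ v : γ × β, X' v.1 v.2 ≠ 0 → X v.1 v.2 ≠ 0 := by
      intro v hv h
      apply hv
      rw [hX', Matrix.sub_apply, h]; simp
    have h3 := ih X' q' hsum' heq' (fun v hv => cA v (hle v hv)) (by
      intro v hv hnv
      refine lt_of_lt_of_le (cB v (hle v hv) hnv) ?_
      have e1 : q + X * Bl = (z + X * Bl) + Th σ n * x := by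
        nth_rewrite 1 [hqz]; ext i a; simp only [Matrix.add_apply]; omega
      have e2 : q' + X' * Bl = (z + X * Bl) + x * Th τ w := by
        have hm : X * Bl = X' * Bl + x * Bl := by
          rw [← Matrix.add_mul, ← hXX]
        rw [hm, hq', hB, Matrix.mul_add]
        ext i a; simp only [Matrix.add_apply]; omega
      rw [e1, e2]
      have s1 : ∑ v' ∈ orb σ τ v, ((z + X * Bl) + Th σ n * x) (σ.symm v'.1) v'.2 =
          ∑ v' ∈ orb σ τ v, (z + X * Bl) (σ.symm v'.1) v'.2 + n v.1 * ∑ v' ∈ orb σ τ v, x v'.1 v'.2 := by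
        rw [← sum_orb_Th σ τ n hn, ← Finset.sum_add_distrib]
        exact Finset.sum_congr rfl fun _ _ => rfl
      have s2 : ∑ v' ∈ orb σ τ v, ((z + X * Bl) + x * Th τ w) (σ.symm v'.1) v'.2 =
          ∑ v' ∈ orb σ τ v, (z + X * Bl) (σ.symm v'.1) v'.2 + w v.2 * ∑ v' ∈ orb σ τ v, x v'.1 v'.2 := by
        rw [← sum_orb_mulTh σ τ w hw, ← Finset.sum_add_distrib]
        exact Finset.sum_congr rfl fun _ _ => rfl
      rw [s1, s2]
      exact Nat.add_le_add_left (Nat.mul_le_mul_right _ hnv) _)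
    have h4 : CH ⟨γ ⊕ β, fromBlocks (Th σ n) q' 0 B⟩ ⟨γ ⊕ β, fromBlocks (Th σ n) q 0 B⟩
        (fromBlocks 1 x 0 1) := by
      refine CH.single (X := ⟨γ ⊕ β, fromBlocks (Th σ n) q' 0 B⟩)
        (Y := ⟨γ ⊕ β, fromBlocks (Th σ n) q 0 B⟩) (fromBlocks 1 x 0 1)
        (fromBlocks (Th σ n) z 0 B) ?_ ?_
      · simp only [Matrix.fromBlocks_multiply]
        rw [hq']; simp
      · simp only [Matrix.fromBlocks_multiply]
        rw [hqz]; simp [add_comm]
    have h5 := h3.trans h4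
    convert h5 using 1
    change fromBlocks 1 X 0 1 = fromBlocks 1 X' 0 1 * fromBlocks 1 x 0 1
    rw [Matrix.fromBlocks_multiply, hXX]
    simp [add_comm]

end fire

end Pool.Agent.H812R2.SSE
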