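import Pool.Agent.H812R2.SSE.Reduce

/-!
# Intrinsic form of the class, zero entropy, and the translation to `Fin n`
-/

set_option autoImplicit false
set_option linter.unusedSectionVars false
set_option linter.unusedVariables false

namespace Pool.Agent.H812R2.SSE

open Matrix

section intrinsic

variable {α : Type} [Fintype α] [DecidableEq α]

/-- reachability -/
def Rch (A : Matrix α α ℕ) (u v : α) : Prop := ∃ k : ℕ, (A ^ k) u v ≠ 0

theorem Rch.refl (A : Matrix α α ℕ) (u : α) : Rch A u u := ⟨0, by simp⟩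

theorem pow_add_ne {A : Matrix α α ℕ} {k l : ℕ} {u v x : α} (h1 : (A ^ k) u v ≠ 0)
    (h2 : (A ^ l) v x ≠ 0) : (A ^ (k + l)) u x ≠ 0 := by
  rw [pow_add]; exact pow_ne_zero_of_path h1 h2

theorem Rch.trans {A : Matrix α α ℕ} {u v x : α} (h1 : Rch A u v) (h2 : Rch A v x) : Rch A u x := by
  obtain ⟨k, hk⟩ := h1
  obtain ⟨l, hl⟩ := h2
  exact ⟨k + l, pow_add_ne hk hl⟩

theorem Rch.edge {A : Matrix α α ℕ} {u v : α} (h : A u v ≠ 0) : Rch A u v := ⟨1, by rwa [pow_one]⟩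

/-- any state in a component with at least two states has at most one closed path of each length -/
def Intr (A : Matrix α α ℕ) : Prop :=
  ∀ i j, i ≠ j → Rch A i j → Rch A j i → ∀ N : ℕ, (A ^ N) i i ≤ 1

theorem two_succ {A : Matrix α α ℕ} {i v v' : α} (hne : v ≠ v') (h1 : A i v ≠ 0) (h2 : Rch A v i)
    (h1' : A i v' ≠ 0) (h2' : Rch A v' i) : ∃ N : ℕ, 2 ≤ (A ^ N) i i := by
  obtain ⟨p, hp⟩ := h2
  obtain ⟨p', hp'⟩ := h2'
  have e1 : (A ^ 1) i v ≠ 0 := by rwa [pow_one]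
  have e1' : (A ^ 1) i v' ≠ 0 := by rwa [pow_one]
  have c1 : (A ^ (p + (1 + p'))) v i ≠ 0 := pow_add_ne hp (pow_add_ne e1' hp')
  have c1' : (A ^ (p' + (1 + p))) v' i ≠ 0 := pow_add_ne hp' (pow_add_ne e1 hp)
  have c2 : p' + (1 + p) = p + (1 + p') := by ring
  rw [c2] at c1'
  refine ⟨(p + (1 + p')) + 1, ?_⟩
  rw [pow_succ', Matrix.mul_apply]
  have hsub : ({v, v'} : Finset α) ⊆ Finset.univ := Finset.subset_univ _
  have h3 := Finset.sum_le_sum_of_subset (f := fun x => A i x * (A ^ (p + (1 + p'))) x i) hsub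
  rw [Finset.sum_pair hne] at h3
  have h4 := Nat.mul_pos (Nat.pos_of_ne_zero h1) (Nat.pos_of_ne_zero c1)
  have h5 := Nat.mul_pos (Nat.pos_of_ne_zero h1') (Nat.pos_of_ne_zero c1')
  omega

theorem two_pred {A : Matrix α α ℕ} {i v v' : α} (hne : v ≠ v') (h1 : A v i ≠ 0) (h2 : Rch A i v)
    (h1' : A v' i ≠ 0) (h2' : Rch A i v') : ∃ N : ℕ, 2 ≤ (A ^ N) i i := by
  obtain ⟨p, hp⟩ := h2
  obtain ⟨p', hp'⟩ := h2'
  have e1 : (A ^ 1) v i ≠ 0 := by rwa [pow_one]
  have e1' : (A ^ 1) v' i ≠ 0 := by rwa [pow_one]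
  have c1 : (A ^ ((p' + 1) + p)) i v ≠ 0 := pow_add_ne (pow_add_ne hp' e1') hp
  have c1' : (A ^ ((p + 1) + p')) i v' ≠ 0 := pow_add_ne (pow_add_ne hp e1) hp'
  have c2 : (p + 1) + p' = (p' + 1) + p := by ring
  rw [c2] at c1'
  refine ⟨((p' + 1) + p) + 1, ?_⟩
  rw [pow_succ, Matrix.mul_apply]
  have hsub : ({v, v'} : Finset α) ⊆ Finset.univ := Finset.subset_univ _
  have h3 := Finset.sum_le_sum_of_subset (f := fun x => (A ^ ((p' + 1) + p)) i x * A x i) hsub
  rw [Finset.sum_pair hne] at h3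
  have h4 := Nat.mul_pos (Nat.pos_of_ne_zero c1) (Nat.pos_of_ne_zero h1)
  have h5 := Nat.mul_pos (Nat.pos_of_ne_zero c1') (Nat.pos_of_ne_zero h1')
  omega

theorem str_of_intr (A : Matrix α α ℕ) (H : Intr A) :
    ∃ (σ : Equiv.Perm α) (lvl : α → ℕ), Str A σ lvl := by
  classical
  set NT : α → Prop := fun i => ∃ j, j ≠ i ∧ Rch A i j ∧ Rch A j i with hNT
  have hNT1 : ∀ i, NT i → ∀ N : ℕ, (A ^ N) i i ≤ 1 := by
    rintro i ⟨j, hj, h1, h2⟩ N
    exact H i j hj.symm h1 h2 N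
  have F1 : ∀ i, NT i → ∃ v, A i v ≠ 0 ∧ Rch A v i := by
    rintro i ⟨j, hj, ⟨k, hk⟩, h2⟩
    cases k with
    | zero => exact absurd (by rw [pow_zero, Matrix.one_apply_ne hj.symm]) hk
    | succ k =>
      rw [pow_succ'] at hk
      obtain ⟨v, hv1, hv2⟩ := mul_ne_zero_entry _ _ _ _ hk
      exact ⟨v, hv1, Rch.trans ⟨k, hv2⟩ h2⟩
  choose! s0 hs1 hs2 using F1
  have F2 : ∀ i v, NT i → A i v ≠ 0 → Rch A v i → v = s0 i := by
    intro i v hi h1 h2
    by_contra hne
    obtain ⟨N, hN⟩ := two_succ hne h1 h2 (hs1 i hi) (hs2 i hi)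
    have := hNT1 i hi N
    omega
  have F3 : ∀ i, NT i → NT (s0 i) := by
    intro i hi
    by_cases h : s0 i = i
    · rw [h]; exact hi
    · exact ⟨i, fun h' => h h'.symm, hs2 i hi, Rch.edge (hs1 i hi)⟩
  set s : α → α := fun i => if NT i then s0 i else i with hs
  have hsN : ∀ i, NT i → s i = s0 i := fun i hi => if_pos hi
  have hsn : ∀ i, ¬ NT i → s i = i := fun i hi => if_neg hi
  have hinj : Function.Injective s := by
    intro i i' h
    by_cases hi : NT i <;> by_cases hi' : NT i'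
    · rw [hsN i hi, hsN i' hi'] at h
      by_contra hne
      have h1' := hs1 i' hi'
      have h2' := hs2 i' hi'
      rw [← h] at h1' h2'
      obtain ⟨N, hN⟩ := two_pred hne (hs1 i hi) (hs2 i hi) h1' h2'
      have := hNT1 _ (F3 i hi) N
      omega
    · rw [hsN i hi, hsn i' hi'] at h
      exact absurd (by rw [← h]; exact F3 i hi) hi'
    · rw [hsn i hi, hsN i' hi'] at h
      exact absurd (by rw [h]; exact F3 i' hi') hi
    · rwa [hsn i hi, hsn i' hi'] at h
  set σ : Equiv.Perm α := Equiv.ofBijective s (Finite.injective_iff_bijective.1 hinj) with hσ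
  have hσs : ∀ i, σ i = s i := fun i => rfl
  refine ⟨σ, fun i => (Finset.univ.filter (fun w => Rch A w i)).card, ?_, ?_, ?_⟩
  · intro a
    by_cases ha : NT a
    · rw [hσs, hsN a ha]
      congr 1
      ext w
      simp only [Finset.mem_filter, Finset.mem_univ, true_and]
      exact ⟨fun h => h.trans (hs2 a ha), fun h => h.trans (Rch.edge (hs1 a ha))⟩
    · rw [hσs, hsn a ha]
  · intro a b hab
    by_cases hba : Rch A b a
    · left
      rw [hσs]
      by_cases ha : NT a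
      · rw [hsN a ha]; exact F2 a b ha hab hba
      · rw [hsn a ha]
        by_contra hne
        exact ha ⟨b, hne, Rch.edge hab, hba⟩
    · right
      refine Finset.card_lt_card ?_
      rw [Finset.ssubset_iff_of_subset]
      · exact ⟨b, by simp [Rch.refl], by simpa using hba⟩
      · intro w
        simp only [Finset.mem_filter, Finset.mem_univ, true_and]
        exact fun h => h.trans (Rch.edge hab)
  · intro a
    by_cases ha : NT a
    · right
      rw [hσs, hsN a ha]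
      obtain ⟨p, hp⟩ := hs2 a ha
      have h1 := hNT1 a ha (p + 1)
      rw [pow_succ'] at h1
      have h2 := mul_entry_le A (A ^ p) a (s0 a) a
      have h3 := Nat.pos_of_ne_zero hp
      have h4 := Nat.pos_of_ne_zero (hs1 a ha)
      have h5 : A a (s0 a) ≤ A a (s0 a) * (A ^ p) (s0 a) a := Nat.le_mul_of_pos_right _ h3
      omega
    · left
      rw [hσs, hsn a ha]

theorem intr_of_str (A : Matrix α α ℕ) (σ : Equiv.Perm α) (lvl : α → ℕ) (s : Str A σ lvl) :
    Intr A := by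
  rintro i j hij ⟨k, hk⟩ ⟨l, hl⟩ N
  have h1 := s.pow_le k hk
  have h2 := s.pow_le l hl
  have h3 : lvl i = lvl j := le_antisymm h1.1 h2.1
  have h4 := h1.2 h3
  by_cases h0 : (A ^ N) i i = 0
  · omega
  · have h5 := (s.pow_le N h0).2 rfl
    have h6 := s.pow_diag N i
    rw [← h5] at h6
    rw [h6]
    rcases s.h1 i with h | h
    · exfalso
      apply hij
      rw [h4]
      have : ∀ k : ℕ, (σ ^ k) i = i := by
        intro k
        induction k with
        | zero => simp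
        | succ k ih => rw [pow_succ', Equiv.Perm.mul_apply, ih, h]
      exact (this k).symm
    · rw [h, one_pow]

/-- spectral radius at most one / topological entropy zero -/
def ZE (A : Matrix α α ℕ) : Prop :=
  ∀ c : ℝ, 1 < c → ∃ C : ℝ, ∀ (N : ℕ) (i j : α), ((A ^ N) i j : ℝ) ≤ C * c ^ N

theorem intr_of_ze (A : Matrix α α ℕ) (h : ZE A) : Intr A := by
  rintro i _ _ _ _ N
  by_contra hcon
  push Not at hcon
  have hN : N ≠ 0 := by
    rintro rfl
    simp at hcon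
  have h2 : ∀ k : ℕ, 2 ^ k ≤ (A ^ (N * k)) i i := by
    intro k
    induction k with
    | zero => simp
    | succ k ih =>
      have e : A ^ (N * (k + 1)) = A ^ (N * k) * A ^ N := by rw [Nat.mul_succ, pow_add]
      rw [e]
      refine le_trans ?_ (mul_entry_le _ _ i i i)
      rw [pow_succ 2 k]
      exact Nat.mul_le_mul ih hcon
  set c : ℝ := (3 / 2 : ℝ) ^ ((N : ℝ)⁻¹) with hc
  have hc1 : 1 < c := Real.one_lt_rpow (by norm_num) (by positivity)
  have hcN : c ^ N = 3 / 2 := Real.rpow_inv_natCast_pow (by norm_num) hN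
  obtain ⟨C, hC⟩ := h c hc1
  have h3 : ∀ k : ℕ, ((4 / 3 : ℝ)) ^ k ≤ C := by
    intro k
    have h4 := hC (N * k) i i
    rw [pow_mul c, hcN] at h4
    have h5 : ((2 : ℝ)) ^ k ≤ ((A ^ (N * k)) i i : ℝ) := by exact_mod_cast h2 k
    have h6 : (2 : ℝ) ^ k = (4 / 3) ^ k * (3 / 2) ^ k := by rw [← mul_pow]; norm_num
    rw [h6] at h5
    exact le_of_mul_le_mul_right (h5.trans h4) (by positivity)
  have h7 := tendsto_pow_atTop_atTop_of_one_lt (r := (4 / 3 : ℝ)) (by norm_num)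
  obtain ⟨k, hk⟩ := (h7.eventually_gt_atTop C).exists
  exact absurd (h3 k) (not_le.2 hk)

theorem ZE.of_se {β : Type} [Fintype β] [DecidableEq β] {A : Matrix α α ℕ} {B : Matrix β β ℕ}
    (hA : ZE A) (h : SE' A B) : ZE B := by
  obtain ⟨l, hl, R, S, h1, h2, h3, h4⟩ := h
  intro c hc
  obtain ⟨C, hC⟩ := hA c hc
  have hc0 : (0 : ℝ) < c := by linarith
  -- for N ≥ l : B^N = S A^(N-l) R
  have key : ∀ N : ℕ, B ^ (l + N) = S * (A ^ N * R) := by
    intro N
    rw [semiconj_pow A B R h3 N, ← Matrix.mul_assoc, h2, pow_add]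
  set T : ℝ := ∑ i, ∑ k, ∑ m, ∑ j, (S i k : ℝ) * (|C| * (R m j : ℝ)) with hT
  set T' : ℝ := ∑ N ∈ Finset.range l, ∑ i, ∑ j, ((B ^ N) i j : ℝ) with hT'
  have hT0 : 0 ≤ T := by positivity
  have hT'0 : 0 ≤ T' := by positivity
  refine ⟨T + T', ?_⟩
  intro N i j
  have hcN : (1 : ℝ) ≤ c ^ N := one_le_pow₀ hc.le
  rcases lt_or_ge N l with hN | hN
  · have e1 : ((B ^ N) i j : ℝ) ≤ T' := by
      have a1 : ((B ^ N) i j : ℝ) ≤ ∑ j, ((B ^ N) i j : ℝ) :=
        Finset.single_le_sum (f := fun j => ((B ^ N) i j : ℝ)) (fun _ _ => by positivity)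
          (Finset.mem_univ j)
      have a2 : ∑ j, ((B ^ N) i j : ℝ) ≤ ∑ i, ∑ j, ((B ^ N) i j : ℝ) :=
        Finset.single_le_sum (f := fun i => ∑ j, ((B ^ N) i j : ℝ)) (fun _ _ => by positivity)
          (Finset.mem_univ i)
      have a3 : ∑ i, ∑ j, ((B ^ N) i j : ℝ) ≤ T' :=
        Finset.single_le_sum (f := fun N => ∑ i, ∑ j, ((B ^ N) i j : ℝ)) (fun _ _ => by positivity)
          (Finset.mem_range.2 hN)
      exact (a1.trans a2).trans a3
    nlinarith
  · obtain ⟨M, rfl⟩ := Nat.exists_eq_add_of_le hN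
    have e1 : ((B ^ (l + M)) i j : ℝ) ≤ T * c ^ M := by
      rw [key, Matrix.mul_apply]
      push_cast
      have b1 : ∀ k, (((A ^ M * R) k j : ℕ) : ℝ) ≤ ∑ m, (|C| * (R m j : ℝ)) * c ^ M := by
        intro k
        rw [Matrix.mul_apply]
        push_cast
        refine Finset.sum_le_sum fun m _ => ?_
        have := hC M k m
        have h5 : C * c ^ M ≤ |C| * c ^ M :=
          mul_le_mul_of_nonneg_right (le_abs_self C) (by positivity)
        calc ((A ^ M) k m : ℝ) * (R m j : ℝ) ≤ (|C| * c ^ M) * (R m j : ℝ) :=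
              mul_le_mul_of_nonneg_right (this.trans h5) (by positivity)
          _ = _ := by ring
      have b2 : ∑ k, (S i k : ℝ) * (((A ^ M * R) k j : ℕ) : ℝ) ≤
          ∑ k, ∑ m, (S i k : ℝ) * (|C| * (R m j : ℝ)) * c ^ M := by
        refine Finset.sum_le_sum fun k _ => ?_
        calc (S i k : ℝ) * (((A ^ M * R) k j : ℕ) : ℝ) ≤
            (S i k : ℝ) * ∑ m, (|C| * (R m j : ℝ)) * c ^ M :=
              mul_le_mul_of_nonneg_left (b1 k) (by positivity)
          _ = _ := by rw [Finset.mul_sum]; refine Finset.sum_congr rfl fun m _ => by ring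
      refine b2.trans ?_
      have b3 : ∑ k, ∑ m, (S i k : ℝ) * (|C| * (R m j : ℝ)) * c ^ M =
          (∑ k, ∑ m, (S i k : ℝ) * (|C| * (R m j : ℝ))) * c ^ M := by
        rw [Finset.sum_mul]
        refine Finset.sum_congr rfl fun k _ => ?_
        rw [Finset.sum_mul]
      rw [b3]
      refine mul_le_mul_of_nonneg_right ?_ (by positivity)
      have b4 : ∑ k, ∑ m, (S i k : ℝ) * (|C| * (R m j : ℝ)) ≤
          ∑ k, ∑ m, ∑ j, (S i k : ℝ) * (|C| * (R m j : ℝ)) := by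
        refine Finset.sum_le_sum fun k _ => Finset.sum_le_sum fun m _ => ?_
        exact Finset.single_le_sum (f := fun j => (S i k : ℝ) * (|C| * (R m j : ℝ)))
          (fun _ _ => by positivity) (Finset.mem_univ j)
      refine b4.trans ?_
      exact Finset.single_le_sum (f := fun i => ∑ k, ∑ m, ∑ j, (S i k : ℝ) * (|C| * (R m j : ℝ)))
          (fun _ _ => by positivity) (Finset.mem_univ i)
    have e2 : c ^ M ≤ c ^ (l + M) := pow_le_pow_right₀ hc.le (by omega)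
    calc ((B ^ (l + M)) i j : ℝ) ≤ T * c ^ M := e1
      _ ≤ T * c ^ (l + M) := mul_le_mul_of_nonneg_left e2 hT0
      _ ≤ (T + T') * c ^ (l + M) := mul_le_mul_of_nonneg_right (by linarith) (by positivity)

end intrinsic

section fin

/-- elementary strong shift equivalence -/
def Elem (X Y : Σ n : ℕ, Matrix (Fin n) (Fin n) ℕ) : Prop :=
  ∃ (R : Matrix (Fin X.1) (Fin Y.1) ℕ) (S : Matrix (Fin Y.1) (Fin X.1) ℕ),
    X.2 = R * S ∧ Y.2 = S * R

theorem elem_sub {X Y : Obj} (R : Matrix X.ι Y.ι ℕ) (S : Matrix Y.ι X.ι ℕ) (h1 : X.M = R * S)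
    (h2 : Y.M = S * R) {n m : ℕ} (e : X.ι ≃ Fin n) (f : Y.ι ≃ Fin m) :
    Elem ⟨n, X.M.submatrix e.symm e.symm⟩ ⟨m, Y.M.submatrix f.symm f.symm⟩ := by
  refine ⟨R.submatrix e.symm f.symm, S.submatrix f.symm e.symm, ?_, ?_⟩
  · rw [Matrix.submatrix_mul_equiv, ← h1]
  · rw [Matrix.submatrix_mul_equiv, ← h2]

theorem CH.transGen {X Y : Obj} {ρ : Matrix X.ι Y.ι ℕ} (h : CH X Y ρ) :
    ∀ {n m : ℕ} (e : X.ι ≃ Fin n) (f : Y.ι ≃ Fin m),
      Relation.TransGen Elem ⟨n, X.M.submatrix e.symm e.symm⟩ ⟨m, Y.M.submatrix f.symm f.symm⟩ := by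
  induction h with
  | refl X =>
    intro n m e f
    exact Relation.TransGen.single (elem_sub (X := X) (Y := X) X.M 1 (by simp) (by simp) e f)
  | step X Y Z R S ρ h1 h2 _ ih =>
    intro n m e f
    exact Relation.TransGen.head (elem_sub R S h1 h2 e (Fintype.equivFin Y.ι))
      (ih (Fintype.equivFin Y.ι) f)

theorem se_of_transGen {X Y : Σ n : ℕ, Matrix (Fin n) (Fin n) ℕ}
    (h : Relation.TransGen Elem X Y) : SE' X.2 Y.2 := by
  have h1 : ∀ X Y, Elem X Y → SE' X.2 Y.2 := by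
    rintro X Y ⟨R, S, h1, h2⟩
    exact (CH.single (X := ⟨Fin X.1, X.2⟩) (Y := ⟨Fin Y.1, Y.2⟩) R S h1 h2).se
  induction h with
  | single h => exact h1 _ _ h
  | tail _ h ih => exact ih.trans (h1 _ _ h)

theorem transGen_of_ch {n m : ℕ} {A : Matrix (Fin n) (Fin n) ℕ} {B : Matrix (Fin m) (Fin m) ℕ}
    {ρ : Matrix (Fin n) (Fin m) ℕ} (h : CH ⟨Fin n, A⟩ ⟨Fin m, B⟩ ρ) :
    Relation.TransGen Elem ⟨n, A⟩ ⟨m, B⟩ :=
  h.transGen (Equiv.refl _) (Equiv.refl _)

end fin

end Pool.Agent.H812R2.SSE
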