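import Pool.Agent.H812R2.SSE.Core

/-!
# Reduction to matrices all of whose vertices lie on closed paths
-/

set_option autoImplicit false
set_option linter.unusedSectionVars false
set_option linter.unusedVariables false

namespace Pool.Agent.H812R2.SSE

open Matrix

theorem CH.rev {X Y : Obj} {ρ : Matrix X.ι Y.ι ℕ} (h : CH X Y ρ) :
    ∃ ρ' : Matrix Y.ι X.ι ℕ, CH Y X ρ' := by
  induction h with
  | refl X => exact ⟨1, CH.refl X⟩
  | step X Y Z R S ρ h1 h2 _ ih =>
    obtain ⟨ρ', h'⟩ := ih
    exact ⟨ρ' * S, h'.trans (CH.single S R h2 h1)⟩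

theorem remove {α : Type} [Fintype α] [DecidableEq α] (A : Matrix α α ℕ) (u : α)
    (hu : ∀ v, A v u = 0) :
    CH ⟨α, A⟩ ⟨{v // v ≠ u}, fun a b => A a.1 b.1⟩ (fun a b => A a b.1) := by
  refine CH.single (X := ⟨α, A⟩) (Y := ⟨{v // v ≠ u}, fun a b => A a.1 b.1⟩) _
    (fun v a => if v.1 = a then 1 else 0) ?_ ?_
  · ext a b
    change A a b = ∑ v : {v // v ≠ u}, A a v.1 * (if v.1 = b then 1 else 0)
    by_cases hb : b = u
    · subst hb
      rw [hu]
      symm
      refine Finset.sum_eq_zero fun v _ => ?_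
      rw [if_neg v.2, mul_zero]
    · rw [Finset.sum_eq_single ⟨b, hb⟩]
      · simp
      · intro v _ hv
        rw [if_neg, mul_zero]
        intro h; exact hv (Subtype.ext h)
      · intro h; exact absurd (Finset.mem_univ _) h
  · ext a b
    change A a.1 b.1 = ∑ v : α, (if a.1 = v then 1 else 0) * A v b.1
    simp

theorem reduce : ∀ (N : ℕ) (α : Type) [Fintype α] [DecidableEq α]
    (A : Matrix α α ℕ) (σ : Equiv.Perm α) (lvl : α → ℕ) (_ : Str A σ lvl), Fintype.card α = N →
    ∃ (β : Type) (_ : Fintype β) (_ : DecidableEq β) (B : Matrix β β ℕ) (τ : Equiv.Perm β)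
      (lvl' : β → ℕ) (ρ : Matrix α β ℕ), Str B τ lvl' ∧ (∀ b, B b (τ b) ≠ 0) ∧
      CH ⟨α, A⟩ ⟨β, B⟩ ρ := by
  intro N
  induction N using Nat.strong_induction_on with
  | _ N ih =>
  intro α _ _ A σ lvl s hN
  classical
  rcases isEmpty_or_nonempty α with hα | hα
  · exact ⟨α, inferInstance, inferInstance, A, σ, lvl, 1, s, fun b => hα.elim b, CH.refl _⟩
  · obtain ⟨u0, _, hu0⟩ := Finset.exists_min_image (Finset.univ : Finset α) lvl
      (by obtain ⟨a⟩ := hα; exact ⟨a, Finset.mem_univ _⟩)
    have hmin : ∀ u, lvl u0 ≤ lvl u := fun u => hu0 u (Finset.mem_univ _)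
    set p : α → Prop := fun u => lvl u = lvl u0 with hp
    have hpσ : ∀ x, p (σ x) ↔ p x := fun x => by simp only [hp, s.hl]
    have hpred1 : ∀ (u v : α), A u v ≠ 0 → p v → p u ∧ v = σ u := by
      intro u v h hv
      obtain ⟨h1, h2⟩ := s.le h
      have h3 : lvl u = lvl u0 := le_antisymm (by rw [← (hv : lvl v = lvl u0)]; exact h1) (hmin u)
      exact ⟨h3, h2 (by rw [h3]; exact (hv : lvl v = lvl u0).symm)⟩
    by_cases hz : ∃ u, p u ∧ A u (σ u) = 0
    · obtain ⟨u, hu, hAu⟩ := hz
      have hσu : σ u = u := by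
        rcases s.h1 u with h | h
        · exact h
        · rw [hAu] at h; exact absurd h (by norm_num)
      have hcol : ∀ v, A v u = 0 := by
        intro v
        by_contra hne
        have h1 := (hpred1 v u hne hu).2
        have h2 : v = u := σ.injective (by rw [← h1, hσu])
        rw [h2] at hne
        rw [hσu] at hAu
        exact hne hAu
      have hne : ∀ x, σ x ≠ u ↔ x ≠ u := by
        intro x
        constructor
        · intro h h'; exact h (by rw [h', hσu])
        · intro h h'; exact h (σ.injective (by rw [h', hσu]))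
      have str1 : Str (fun a b : {v // v ≠ u} => A a.1 b.1)
          (Equiv.Perm.subtypePerm (p := fun x => x ≠ u) σ hne) (fun a => lvl a.1) := by
        refine ⟨fun a => s.hl a.1, ?_, ?_⟩
        · intro a b hab
          rcases s.he a.1 b.1 hab with h | h
          · exact Or.inl (Subtype.ext h)
          · exact Or.inr h
        · intro a
          rcases s.h1 a.1 with h | h
          · exact Or.inl (Subtype.ext h)
          · exact Or.inr h
      have hcard : Fintype.card {v // v ≠ u} < N := by
        rw [← hN]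
        exact Fintype.card_subtype_lt (x := u) (by simp)
      obtain ⟨β, i1, i2, B, τ, lvl', ρ, h1, h2, h3⟩ := ih _ hcard {v // v ≠ u} _ _ _ str1 rfl
      exact ⟨β, i1, i2, B, τ, lvl', _, h1, h2, (remove A u hcol).trans h3⟩
    · push Not at hz
      have hnpσ : ∀ b, ¬ p (σ b) ↔ ¬ p b := fun b => not_congr (hpσ b)
      set σ' := σ.subtypePerm hpσ with hσ'
      set n : {u // p u} → ℕ := fun u => A u.1 (σ u.1) with hn
      set m : Matrix {u // p u} {u // ¬ p u} ℕ := fun u v => A u.1 v.1 with hm
      set A1 : Matrix {u // ¬ p u} {u // ¬ p u} ℕ := fun u v => A u.1 v.1 with hA1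
      set e : α ≃ {u // p u} ⊕ {u // ¬ p u} := (Equiv.sumCompl p).symm with he
      have he1 : ∀ u, e.symm (Sum.inl u) = u.1 := fun u => rfl
      have he2 : ∀ u, e.symm (Sum.inr u) = u.1 := fun u => rfl
      have bA : A.submatrix e.symm e.symm = fromBlocks (Th σ' n) m 0 A1 := by
        ext i j
        rcases i with i | i <;> rcases j with j | j
        · simp only [Matrix.submatrix_apply, he1, Matrix.fromBlocks_apply₁₁, Th_apply]
          by_cases h : j = σ' i
          · rw [if_pos h, h]; rfl
          · rw [if_neg h]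
            by_contra hne
            exact h (Subtype.ext (hpred1 i.1 j.1 hne j.2).2)
        · rfl
        · simp only [Matrix.submatrix_apply, he1, he2, Matrix.fromBlocks_apply₂₁, Matrix.zero_apply]
          by_contra hne
          exact i.2 (hpred1 i.1 j.1 hne j.2).1
        · rfl
      have str1 : Str A1 (Equiv.Perm.subtypePerm (p := fun x => ¬ p x) σ hnpσ)
          (fun a => lvl a.1) := by
        refine ⟨fun a => s.hl a.1, ?_, ?_⟩
        · intro a b hab
          rcases s.he a.1 b.1 hab with h | h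
          · exact Or.inl (Subtype.ext h)
          · exact Or.inr h
        · intro a
          rcases s.h1 a.1 with h | h
          · exact Or.inl (Subtype.ext h)
          · exact Or.inr h
      have hcard : Fintype.card {u // ¬ p u} < N := by
        rw [← hN]
        exact Fintype.card_subtype_lt (x := u0) (by simp [hp])
      obtain ⟨β, i1, i2, B, τ, lvl', ρ, h1, h2, h3⟩ := ih _ hcard _ _ _ _ str1 rfl
      have c1 := CH.iso e A
      rw [bA] at c1
      have c2 := h3.lift (Th σ' n) m
      refine ⟨{u // p u} ⊕ β, inferInstance, inferInstance, fromBlocks (Th σ' n) (m * ρ) 0 B,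
        Equiv.sumCongr σ' τ, Sum.elim (fun _ => 0) (fun b => lvl' b + 1), _, ?_, ?_, c1.trans c2⟩
      · refine ⟨?_, ?_, ?_⟩
        · rintro (a | a)
          · rfl
          · change lvl' (τ a) + 1 = lvl' a + 1
            rw [h1.hl]
        · rintro (a | a) (b | b) hab
          · left
            rw [Matrix.fromBlocks_apply₁₁, Th_apply] at hab
            split_ifs at hab with h
            · rw [h]; rfl
            · exact absurd rfl hab
          · right; exact Nat.succ_pos _
          · exact absurd rfl hab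
          · rcases h1.he a b hab with h | h
            · left; rw [h]; rfl
            · right; exact Nat.succ_lt_succ h
        · rintro (a | a)
          · rcases s.h1 a.1 with h | h
            · left
              have h5 : σ' a = a := Subtype.ext h
              change Sum.inl (σ' a) = Sum.inl a
              rw [h5]
            · right
              change Th σ' n a (σ' a) = 1
              rw [Th_apply, if_pos rfl]
              exact h
          · rcases h1.h1 a with h | h
            · left
              change Sum.inr (τ a) = Sum.inr a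
              rw [h]
            · right; exact h
      · rintro (a | a)
        · change Th σ' n a (σ' a) ≠ 0
          rw [Th_apply, if_pos rfl]
          exact hz a.1 a.2
        · exact h2 a

/-- shift equivalence over `ℕ` for arbitrary finite index types -/
def SE' {α β : Type} [Fintype α] [DecidableEq α] [Fintype β] [DecidableEq β]
    (A : Matrix α α ℕ) (B : Matrix β β ℕ) : Prop :=
  ∃ l : ℕ, 1 ≤ l ∧ ∃ (R : Matrix α β ℕ) (S : Matrix β α ℕ),
    R * S = A ^ l ∧ S * R = B ^ l ∧ A * R = R * B ∧ S * A = B * S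

theorem SE'.symm {α β : Type} [Fintype α] [DecidableEq α] [Fintype β] [DecidableEq β]
    {A : Matrix α α ℕ} {B : Matrix β β ℕ} (h : SE' A B) : SE' B A := by
  obtain ⟨l, hl, R, S, h1, h2, h3, h4⟩ := h
  exact ⟨l, hl, S, R, h2, h1, h4.symm, h3.symm⟩

theorem SE'.trans {α β γ : Type} [Fintype α] [DecidableEq α] [Fintype β] [DecidableEq β]
    [Fintype γ] [DecidableEq γ]
    {A : Matrix α α ℕ} {B : Matrix β β ℕ} {C : Matrix γ γ ℕ} (h : SE' A B) (h' : SE' B C) :
    SE' A C := by
  obtain ⟨l, hl, R, S, h1, h2, h3, h4⟩ := h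
  obtain ⟨l', hl', R', S', h1', h2', h3', h4'⟩ := h'
  refine ⟨l + l', by omega, R * R', S' * S, ?_, ?_, ?_, ?_⟩
  · calc R * R' * (S' * S) = R * (R' * S') * S := by simp only [Matrix.mul_assoc]
      _ = R * B ^ l' * S := by rw [h1']
      _ = A ^ l' * R * S := by rw [semiconj_pow A B R h3]
      _ = A ^ (l + l') := by rw [Matrix.mul_assoc, h1, ← pow_add, add_comm]
  · have hS : C ^ l * S' = S' * B ^ l := semiconj_pow C B S' h4'.symm l
    calc S' * S * (R * R') = S' * (S * R) * R' := by simp only [Matrix.mul_assoc]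
      _ = S' * B ^ l * R' := by rw [h2]
      _ = C ^ l * S' * R' := by rw [hS]
      _ = C ^ (l + l') := by rw [Matrix.mul_assoc, h2', ← pow_add]
  · rw [← Matrix.mul_assoc, h3, Matrix.mul_assoc, h3', Matrix.mul_assoc]
  · rw [Matrix.mul_assoc, h4, ← Matrix.mul_assoc, h4', Matrix.mul_assoc]

theorem SE'.refl {α : Type} [Fintype α] [DecidableEq α] (A : Matrix α α ℕ) : SE' A A :=
  ⟨1, le_refl _, A, 1, by simp, by simp, rfl, by simp⟩

theorem CH.se {X Y : Obj} {ρ : Matrix X.ι Y.ι ℕ} (h : CH X Y ρ) : SE' X.M Y.M := by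
  induction h with
  | refl X => exact SE'.refl _
  | step X Y Z R S ρ h1 h2 _ ih =>
    refine SE'.trans ?_ ih
    refine ⟨1, le_refl _, R, S, ?_, ?_, ?_, ?_⟩
    · rw [pow_one, h1]
    · rw [pow_one, h2]
    · rw [h1, h2, Matrix.mul_assoc]
    · rw [h1, h2, Matrix.mul_assoc]

theorem main_str {α β : Type} [Fintype α] [DecidableEq α] [Fintype β] [DecidableEq β]
    (A : Matrix α α ℕ) (B : Matrix β β ℕ) (σ : Equiv.Perm α) (lvlA : α → ℕ)
    (τ : Equiv.Perm β) (lvlB : β → ℕ) (sA : Str A σ lvlA) (sB : Str B τ lvlB) (h : SE' A B) :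
    ∃ ρ, CH ⟨α, A⟩ ⟨β, B⟩ ρ := by
  obtain ⟨α', i1, i2, A', σ', lvlA', ρ, sA', hA', cA⟩ := reduce _ α A σ lvlA sA rfl
  obtain ⟨β', j1, j2, B', τ', lvlB', ρ', sB', hB', cB⟩ := reduce _ β B τ lvlB sB rfl
  have hAB : SE' A' B' := (cA.se.symm.trans h).trans cB.se
  obtain ⟨l, hl, R, S, h1, h2, h3, h4⟩ := hAB
  obtain ⟨L, hL, hCH⟩ := core _ α' β' A' B' σ' lvlA' τ' lvlB' sA' sB' hA' hB' R S l hl h3 h4 h1 h2 rfl
  obtain ⟨ρ'', cB'⟩ := cB.rev
  exact ⟨_, (cA.trans (hCH 1 le_rfl)).trans cB'⟩

end Pool.Agent.H812R2.SSE
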