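import Pool.Agent.H812R2.SSE.Exec

/-!
# Scaling steps
-/

set_option autoImplicit false
set_option linter.unusedSectionVars false

namespace Pool.Agent.H812R2.SSE

open Matrix

variable {γ β : Type} [Fintype γ] [DecidableEq γ] [Fintype β] [DecidableEq β]

theorem Th_mul_Th (σ σ' : Equiv.Perm γ) (n n' : γ → ℕ) :
    Th σ n * Th σ' n' = Th (σ' * σ) (fun i => n i * n' (σ i)) := by
  ext i j
  rw [Th_mul, Th_apply, Th_apply, Equiv.Perm.mul_apply]
  split_ifs <;> simp

theorem Th_pow (σ : Equiv.Perm γ) (n : γ → ℕ) (hn : ∀ i, n (σ i) = n i) (p : ℕ) :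
    Th σ n ^ p = Th (σ ^ p) (fun i => n i ^ p) := by
  induction p with
  | zero =>
    ext i j
    simp only [pow_zero, Th_apply, Equiv.Perm.one_apply, Matrix.one_apply]
    by_cases h : i = j
    · simp [h]
    · rw [if_neg h, if_neg (fun h' => h h'.symm)]
  | succ p ih =>
    have hp : ∀ i, n ((σ ^ p) i) = n i := by
      intro i
      clear ih
      induction p with
      | zero => simp
      | succ p ih => rw [pow_succ', Equiv.Perm.mul_apply, hn, ih]
    rw [pow_succ, ih, Th_mul_Th, ← pow_succ']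
    congr 1
    funext i
    rw [hp, pow_succ]

theorem Th_pow_mul (σ : Equiv.Perm γ) (n : γ → ℕ) (hn : ∀ i, n (σ i) = n i) (p : ℕ)
    (X : Matrix γ β ℕ) (i : γ) (a : β) :
    (Th σ n ^ p * X) i a = n i ^ p * X ((σ ^ p) i) a := by
  rw [Th_pow σ n hn, Th_mul]

theorem scale_div (σ : Equiv.Perm γ) (n d : γ → ℕ) (hd : ∀ i, d i ∣ n i) (hds : ∀ i, d (σ i) = d i)
    (z : Matrix γ β ℕ) (B : Matrix β β ℕ) :
    CH ⟨γ ⊕ β, fromBlocks (Th σ n) (diagonal d * z) 0 B⟩ ⟨γ ⊕ β, fromBlocks (Th σ n) z 0 B⟩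
      (fromBlocks (diagonal d) 0 0 1) := by
  refine CH.single (X := ⟨γ ⊕ β, fromBlocks (Th σ n) (diagonal d * z) 0 B⟩)
    (Y := ⟨γ ⊕ β, fromBlocks (Th σ n) z 0 B⟩) (fromBlocks (diagonal d) 0 0 1)
    (fromBlocks (Th σ (fun i => n i / d i)) z 0 B) ?_ ?_
  · have h : diagonal d * Th σ (fun i => n i / d i) = Th σ n := by
      ext i j
      rw [Matrix.diagonal_mul, Th_apply, Th_apply]
      split_ifs
      · exact Nat.mul_div_cancel' (hd i)
      · simp
    simp only [Matrix.fromBlocks_multiply, h]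
    simp
  · have h : Th σ (fun i => n i / d i) * diagonal d = Th σ n := by
      ext i j
      rw [Matrix.mul_diagonal, Th_apply, Th_apply]
      split_ifs with h
      · rw [h, hds]; exact Nat.div_mul_cancel (hd i)
      · simp
    simp only [Matrix.fromBlocks_multiply, h]
    simp

theorem scale_pow (σ : Equiv.Perm γ) (n : γ → ℕ) (hn : ∀ i, n (σ i) = n i) (hpn : ∀ i, 0 < n i)
    (B : Matrix β β ℕ) (l : ℕ) : ∀ (r : γ → ℕ) (_ : ∀ i, r i ∣ n i ^ l) (_ : ∀ i, r (σ i) = r i) (z : Matrix γ β ℕ),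
    CH ⟨γ ⊕ β, fromBlocks (Th σ n) (diagonal r * z) 0 B⟩ ⟨γ ⊕ β, fromBlocks (Th σ n) z 0 B⟩
      (fromBlocks (diagonal r) 0 0 1) := by
  induction l with
  | zero =>
    intro r hr _ z
    have h1 : r = fun _ => 1 := by
      funext i; have := hr i; rw [pow_zero] at this; exact Nat.dvd_one.1 this
    subst h1
    have h2 : (diagonal (fun _ : γ => (1 : ℕ))) = 1 := Matrix.diagonal_one
    rw [h2, Matrix.one_mul, Matrix.fromBlocks_one]
    exact CH.refl _
  | succ l ih =>
    intro r hr hrs z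
    -- d = gcd r n
    set d : γ → ℕ := fun i => Nat.gcd (r i) (n i) with hd
    set r' : γ → ℕ := fun i => r i / d i with hr'
    have hrd : ∀ i, d i * r' i = r i := fun i => Nat.mul_div_cancel' (Nat.gcd_dvd_left _ _)
    have h1 : ∀ i, r' i ∣ n i ^ l := by
      intro i
      have hpos : 0 < d i := Nat.gcd_pos_of_pos_right _ (hpn i)
      have hcop : Nat.Coprime (r i / d i) (n i / d i) := Nat.coprime_div_gcd_div_gcd hpos
      have h2 : d i * r' i ∣ d i * ((n i / d i) * n i ^ l) := by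
        rw [hrd, ← mul_assoc, Nat.mul_div_cancel' (Nat.gcd_dvd_right _ _)]
        have := hr i
        rwa [pow_succ'] at this
      have h3 := Nat.dvd_of_mul_dvd_mul_left hpos h2
      exact hcop.dvd_of_dvd_mul_left h3
    have hds : ∀ i, d (σ i) = d i := fun i => by simp only [hd, hrs, hn]
    have hr's : ∀ i, r' (σ i) = r' i := fun i => by simp only [hr', hds, hrs]
    have e1 : diagonal r = diagonal d * diagonal r' := by
      rw [Matrix.diagonal_mul_diagonal]; congr 1; funext i; exact (hrd i).symm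
    have c1 := scale_div σ n d (fun i => Nat.gcd_dvd_right _ _) hds (diagonal r' * z) B
    have c2 := ih r' h1 hr's z
    have c3 := c1.trans c2
    rw [← Matrix.mul_assoc, ← e1] at c3
    convert c3 using 1
    change _ = fromBlocks (diagonal d) 0 0 1 * fromBlocks (diagonal r') 0 0 1
    rw [Matrix.fromBlocks_multiply, e1]
    simp

theorem scale_Th (σ : Equiv.Perm γ) (n : γ → ℕ) (z : Matrix γ β ℕ) (B : Matrix β β ℕ) (t : ℕ) :
    CH ⟨γ ⊕ β, fromBlocks (Th σ n) (Th σ n ^ t * z) 0 B⟩ ⟨γ ⊕ β, fromBlocks (Th σ n) z 0 B⟩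
      (fromBlocks (Th σ n ^ t) 0 0 1) := by
  induction t with
  | zero =>
    rw [pow_zero, Matrix.one_mul, Matrix.fromBlocks_one]
    exact CH.refl _
  | succ t ih =>
    have c1 : CH ⟨γ ⊕ β, fromBlocks (Th σ n) (Th σ n ^ (t + 1) * z) 0 B⟩
        ⟨γ ⊕ β, fromBlocks (Th σ n) (Th σ n ^ t * z) 0 B⟩ (fromBlocks (Th σ n) 0 0 1) := by
      refine CH.single (X := ⟨γ ⊕ β, fromBlocks (Th σ n) (Th σ n ^ (t + 1) * z) 0 B⟩)
        (Y := ⟨γ ⊕ β, fromBlocks (Th σ n) (Th σ n ^ t * z) 0 B⟩) (fromBlocks (Th σ n) 0 0 1)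
        (fromBlocks 1 (Th σ n ^ t * z) 0 B) ?_ ?_
      · simp only [Matrix.fromBlocks_multiply, pow_succ', Matrix.mul_assoc]; simp
      · simp only [Matrix.fromBlocks_multiply]; simp
    have c3 := c1.trans ih
    convert c3 using 1
    change _ = fromBlocks (Th σ n) 0 0 1 * fromBlocks (Th σ n ^ t) 0 0 1
    rw [Matrix.fromBlocks_multiply, pow_succ']
    simp

end Pool.Agent.H812R2.SSE
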